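import Pool.Agent.Helper85.BD.Polar

/-!
# MP_8ad3e9_gt: the area of a planar convex body with a smooth support function

The area is half the integral of `h² - h'²` over the circle, without any assumption on the
curvature: the boundary point with normal `exp(i t)` is `(h + i h') exp(i t)`, its argument is
`t + arctan(h'/h)`.
-/

set_option autoImplicit false

open MeasureTheory Set
open scoped MeasureTheory Real

namespace Pool.Agent.Helper35.PB

open Pool.Agent.Helper85.BD

private lemma dotc_exp_mul (t : ℝ) (a c : ℝ) :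
    dotc (Complex.exp (t * Complex.I)) ((a + c * Complex.I) * Complex.exp (t * Complex.I)) = a := by
  unfold dotc
  have h1 : (Complex.exp (t * Complex.I)).re = Real.cos t := Complex.exp_ofReal_mul_I_re t
  have h2 : (Complex.exp (t * Complex.I)).im = Real.sin t := Complex.exp_ofReal_mul_I_im t
  simp only [Complex.mul_re, Complex.mul_im, h1, h2, Complex.add_re, Complex.add_im,
    Complex.ofReal_re, Complex.ofReal_im, Complex.mul_re, Complex.mul_im, Complex.I_re,
    Complex.I_im]
  have := Real.cos_sq_add_sin_sq t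
  linear_combination a * this

private lemma dotc_smul (w z : ℂ) (r : ℝ) : dotc w ((r : ℂ) * z) = r * dotc w z := by
  unfold dotc
  simp
  ring

/-- The decomposition of a complex number in the frame `exp(i t)`, `i exp(i t)`. -/
private lemma decomp (t : ℝ) (z : ℂ) :
    z = ((dotc (Complex.exp (t * Complex.I)) z : ℝ) +
      ((-Real.sin t * z.re + Real.cos t * z.im : ℝ) : ℂ) * Complex.I) *
        Complex.exp (t * Complex.I) := by
  have h1 : (Complex.exp (t * Complex.I)).re = Real.cos t := Complex.exp_ofReal_mul_I_re t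
  have h2 : (Complex.exp (t * Complex.I)).im = Real.sin t := Complex.exp_ofReal_mul_I_im t
  have h3 := Real.cos_sq_add_sin_sq t
  unfold dotc
  apply Complex.ext
  · simp only [Complex.mul_re, Complex.mul_im, h1, h2, Complex.add_re, Complex.add_im,
      Complex.ofReal_re, Complex.ofReal_im, Complex.I_re, Complex.I_im]
    linear_combination (-z.re) * h3
  · simp only [Complex.mul_re, Complex.mul_im, h1, h2, Complex.add_re, Complex.add_im,
      Complex.ofReal_re, Complex.ofReal_im, Complex.I_re, Complex.I_im]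
    linear_combination (-z.im) * h3

private lemma hasDerivAt_dotc (z : ℂ) (t : ℝ) :
    HasDerivAt (fun s : ℝ => dotc (Complex.exp (s * Complex.I)) z)
      (-Real.sin t * z.re + Real.cos t * z.im) t := by
  have h1 : (fun s : ℝ => dotc (Complex.exp (s * Complex.I)) z) =
      fun s : ℝ => Real.cos s * z.re + Real.sin s * z.im := by
    funext s
    unfold dotc
    rw [Complex.exp_ofReal_mul_I_re, Complex.exp_ofReal_mul_I_im]
  rw [h1]
  exact ((Real.hasDerivAt_cos t).mul_const z.re).add ((Real.hasDerivAt_sin t).mul_const z.im)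

/-- The boundary point with given normal. -/
private lemma point_mem {Q : Set ℂ} {h h1 : ℝ → ℝ} (hh1 : ∀ t, HasDerivAt h (h1 t) t)
    (hle : ∀ z ∈ Q, ∀ t : ℝ, dotc (Complex.exp (t * Complex.I)) z ≤ h t)
    (hex : ∀ t : ℝ, ∃ z ∈ Q, dotc (Complex.exp (t * Complex.I)) z = h t) (t : ℝ) :
    ((h t : ℂ) + (h1 t : ℂ) * Complex.I) * Complex.exp (t * Complex.I) ∈ Q := by
  obtain ⟨z, hz, hzt⟩ := hex t
  have hmin : IsLocalMin (fun s : ℝ => h s - dotc (Complex.exp (s * Complex.I)) z) t := by
    refine Filter.Eventually.of_forall fun s => ?_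
    show h t - dotc (Complex.exp (t * Complex.I)) z ≤ h s - dotc (Complex.exp (s * Complex.I)) z
    rw [hzt, sub_self]
    exact sub_nonneg.2 (hle z hz s)
  have hd := (hh1 t).sub (hasDerivAt_dotc z t)
  have h0 := hmin.hasDerivAt_eq_zero hd
  have h2 : h1 t = -Real.sin t * z.re + Real.cos t * z.im := sub_eq_zero.1 h0
  have h3 := decomp t z
  rw [hzt, ← h2] at h3
  rw [← h3]
  exact hz

theorem area_eq {Q : Set ℂ} (hQ : IsCompact Q) (hc : Convex ℝ Q) (h0 : Q ∈ nhds (0 : ℂ))
    {h h1 h2 : ℝ → ℝ} (hh1 : ∀ t, HasDerivAt h (h1 t) t) (hh2 : ∀ t, HasDerivAt h1 (h2 t) t)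
    (hcont : Continuous h2)
    (hle : ∀ z ∈ Q, ∀ t : ℝ, dotc (Complex.exp (t * Complex.I)) z ≤ h t)
    (hex : ∀ t : ℝ, ∃ z ∈ Q, dotc (Complex.exp (t * Complex.I)) z = h t) :
    (volume Q).toReal = ∫ t in (-π)..π, (h t ^ 2 - h1 t ^ 2) / 2 := by
  have hhc : Continuous h := continuous_iff_continuousAt.2 fun t => (hh1 t).continuousAt
  have hh1c : Continuous h1 := continuous_iff_continuousAt.2 fun t => (hh2 t).continuousAt
  -- positivity
  have hpos : ∀ t, 0 < h t := by
    intro t
    obtain ⟨ε, hε, hball⟩ := Metric.mem_nhds_iff.1 h0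
    have hz : ((ε / 2 : ℝ) : ℂ) * Complex.exp (t * Complex.I) ∈ Q := by
      apply hball
      rw [Metric.mem_ball, dist_zero_right, norm_mul, Complex.norm_exp_ofReal_mul_I, mul_one,
        Complex.norm_real, Real.norm_eq_abs, abs_of_pos (half_pos hε)]
      exact half_lt_self hε
    have h3 := hle _ hz t
    have h4 := dotc_exp_mul t (ε / 2) 0
    rw [Complex.ofReal_zero, zero_mul, add_zero] at h4
    rw [h4] at h3
    exact lt_of_lt_of_le (half_pos hε) h3
  -- periodicity
  have hexp : ∀ t : ℝ, Complex.exp (((t + 2 * π : ℝ) : ℂ) * Complex.I) =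
      Complex.exp (t * Complex.I) := by
    intro t
    have h3 : (((t + 2 * π : ℝ) : ℂ) * Complex.I) = t * Complex.I + 2 * π * Complex.I := by
      push_cast
      ring
    rw [h3, Complex.exp_periodic]
  have hper : ∀ t, h (t + 2 * π) = h t := by
    intro t
    apply le_antisymm
    · obtain ⟨z, hz, hzt⟩ := hex (t + 2 * π)
      rw [← hzt, hexp]
      exact hle z hz t
    · obtain ⟨z, hz, hzt⟩ := hex t
      rw [← hzt, ← hexp]
      exact hle z hz _
  have hper1 : ∀ t, h1 (t + 2 * π) = h1 t := by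
    intro t
    have h3 : HasDerivAt (fun s => h (s + 2 * π)) (h1 (t + 2 * π)) t :=
      (hh1 (t + 2 * π)).comp_add_const t (2 * π)
    have h4 : (fun s => h (s + 2 * π)) = h := funext hper
    rw [h4] at h3
    exact h3.unique (hh1 t)
  have hbd := hQ.isBounded
  obtain ⟨R, hR⟩ := hbd.subset_closedBall (0 : ℂ)
  have habs : Absorbent ℝ Q := absorbent_nhds_zero h0
  have hgc : Continuous (gauge Q) := continuous_gauge hc h0
  have hgpos : ∀ w : ℂ, w ≠ 0 → 0 < gauge Q w := fun w hw =>
    (gauge_pos habs ((NormedSpace.isVonNBounded_iff ℝ).2 hbd)).2 hw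
  have hmem : ∀ z : ℂ, z ∈ Q ↔ gauge Q z ≤ 1 := by
    intro z
    rw [gauge_le_one_iff_mem_closure hc h0, hQ.isClosed.closure_eq]
  have hexp0 : ∀ t : ℝ, Complex.exp (t * Complex.I) ≠ 0 := fun t => Complex.exp_ne_zero _
  have hgsm : ∀ (r : ℝ) (w : ℂ), 0 ≤ r → gauge Q ((r : ℂ) * w) = r * gauge Q w := by
    intro r w hr
    have h3 := gauge_smul_of_nonneg (s := Q) hr w
    rw [Complex.real_smul, smul_eq_mul] at h3
    exact h3
  -- the gauge of the boundary point
  have hg1 : ∀ t : ℝ, gauge Q (((h t : ℂ) + (h1 t : ℂ) * Complex.I) *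
      Complex.exp (t * Complex.I)) = 1 := by
    intro t
    apply le_antisymm
    · exact (hmem _).1 (point_mem hh1 hle hex t)
    · by_contra hlt
      push Not at hlt
      obtain ⟨r, hr0, hr1, y, hy, hyx⟩ := exists_lt_of_gauge_lt habs hlt
      have h3 := hle y hy t
      have h4 := dotc_exp_mul t (h t) (h1 t)
      have h5 : (r : ℂ) * y = ((h t : ℂ) + (h1 t : ℂ) * Complex.I) *
          Complex.exp (t * Complex.I) := by
        rw [← hyx]
        exact (Complex.real_smul).symm
      rw [← h5, dotc_smul] at h4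
      have h6 := hpos t
      nlinarith
  -- the region
  set f : ℂ → ℝ := fun w => (gauge Q w)⁻¹ with hf
  have hfe : Continuous fun t : ℝ => f (Complex.exp (t * Complex.I)) := by
    have h3 : Continuous fun t : ℝ => gauge Q (Complex.exp (t * Complex.I)) :=
      hgc.comp (by fun_prop)
    exact h3.inv₀ fun t => (hgpos _ (hexp0 t)).ne'
  have hQset : Q = {z : ℂ | ‖z‖ ≤ f (Complex.exp (z.arg * Complex.I))} := by
    ext z
    rw [hmem]
    show gauge Q z ≤ 1 ↔ ‖z‖ ≤ f (Complex.exp (z.arg * Complex.I))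
    have h3 : gauge Q z = ‖z‖ * gauge Q (Complex.exp (z.arg * Complex.I)) := by
      conv_lhs => rw [← Complex.norm_mul_exp_arg_mul_I z]
      exact hgsm _ _ (norm_nonneg z)
    have h4 := hgpos _ (hexp0 z.arg)
    rw [h3, hf]
    show _ ↔ ‖z‖ ≤ (gauge Q (Complex.exp (z.arg * Complex.I)))⁻¹
    rw [← one_div, le_div_iff₀ h4]
  have hvol : (volume Q).toReal = ∫ t in (-π)..π, f (Complex.exp (t * Complex.I)) ^ 2 / 2 := by
    conv_lhs => rw [hQset]
    refine volume_region_real f hfe.measurable (C := R) (fun w _ => ?_) fun w hw => ?_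
    · exact inv_nonneg.2 (gauge_nonneg _)
    · have hw0 : w ≠ 0 := by
        intro h3
        rw [h3, norm_zero] at hw
        exact one_ne_zero hw.symm
      have h3 := hgpos w hw0
      have h4 : ((f w : ℝ) : ℂ) * w ∈ Q := by
        rw [hmem, hgsm _ _ (inv_nonneg.2 (gauge_nonneg _))]
        show (gauge Q w)⁻¹ * gauge Q w ≤ 1
        rw [inv_mul_cancel₀ h3.ne']
      have h5 := hR h4
      rw [mem_closedBall_zero_iff, norm_mul, hw, mul_one, Complex.norm_real,
        Real.norm_eq_abs] at h5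
      exact (le_abs_self _).trans h5
  -- the angle of the boundary point
  set φ : ℝ → ℝ := fun t => t + Real.arctan (h1 t / h t) with hφ
  have hsum : ∀ t, 0 < h t ^ 2 + h1 t ^ 2 := fun t => by
    have := hpos t
    positivity
  have hφd : ∀ t, HasDerivAt φ ((h t ^ 2 + h t * h2 t) / (h t ^ 2 + h1 t ^ 2)) t := by
    intro t
    have h3 := hpos t
    have h4 : HasDerivAt (fun s => h1 s / h s) ((h2 t * h t - h1 t * h1 t) / h t ^ 2) t :=
      (hh2 t).div (hh1 t) h3.ne'
    have h5 := (hasDerivAt_id t).add h4.arctan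
    have h6 : (h t ^ 2 + h t * h2 t) / (h t ^ 2 + h1 t ^ 2) =
        1 + 1 / (1 + (h1 t / h t) ^ 2) * ((h2 t * h t - h1 t * h1 t) / h t ^ 2) := by
      have h7 := (hsum t).ne'
      have h8 : 1 + (h1 t / h t) ^ 2 = (h t ^ 2 + h1 t ^ 2) / h t ^ 2 := by
        field_simp
      rw [h8]
      field_simp
      ring
    rw [h6]
    exact h5
  have hx : ∀ t : ℝ, ((h t : ℂ) + (h1 t : ℂ) * Complex.I) * Complex.exp (t * Complex.I) =
      ((Real.sqrt (h t ^ 2 + h1 t ^ 2) : ℝ) : ℂ) * Complex.exp ((φ t : ℝ) * Complex.I) := by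
    intro t
    have h3 := hpos t
    set a := Real.arctan (h1 t / h t) with ha
    have h4 : Real.sqrt (1 + (h1 t / h t) ^ 2) = Real.sqrt (h t ^ 2 + h1 t ^ 2) / h t := by
      have h8 : 1 + (h1 t / h t) ^ 2 = (h t ^ 2 + h1 t ^ 2) / h t ^ 2 := by
        field_simp
      rw [h8, Real.sqrt_div' _ (sq_nonneg _), Real.sqrt_sq h3.le]
    have hs : 0 < Real.sqrt (h t ^ 2 + h1 t ^ 2) := Real.sqrt_pos.2 (hsum t)
    have h5 : Real.sqrt (h t ^ 2 + h1 t ^ 2) * Real.cos a = h t := by
      rw [ha, Real.cos_arctan, h4]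
      field_simp
    have h6 : Real.sqrt (h t ^ 2 + h1 t ^ 2) * Real.sin a = h1 t := by
      rw [ha, Real.sin_arctan, h4]
      field_simp
    have h7 : Complex.exp ((φ t : ℝ) * Complex.I) =
        ((Real.cos a : ℝ) + (Real.sin a : ℝ) * Complex.I) * Complex.exp (t * Complex.I) := by
      have h8 : ((φ t : ℝ) : ℂ) * Complex.I = (a : ℂ) * Complex.I + t * Complex.I := by
        have h9 : φ t = t + a := rfl
        rw [h9]
        push_cast
        ring
      rw [h8, Complex.exp_add, Complex.exp_mul_I]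
      push_cast
      ring
    rw [h7, ← mul_assoc]
    congr 1
    have h9 : ((h t : ℝ) : ℂ) = ((Real.sqrt (h t ^ 2 + h1 t ^ 2) * Real.cos a : ℝ) : ℂ) := by
      rw [h5]
    have h10 : ((h1 t : ℝ) : ℂ) = ((Real.sqrt (h t ^ 2 + h1 t ^ 2) * Real.sin a : ℝ) : ℂ) := by
      rw [h6]
    rw [h9, h10]
    push_cast
    ring
  have hgφ : ∀ t : ℝ, f (Complex.exp ((φ t : ℝ) * Complex.I)) ^ 2 / 2 =
      (h t ^ 2 + h1 t ^ 2) / 2 := by
    intro t
    have h3 := hg1 t
    rw [hx t, hgsm _ _ (Real.sqrt_nonneg _)] at h3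
    have hs : 0 < Real.sqrt (h t ^ 2 + h1 t ^ 2) := Real.sqrt_pos.2 (hsum t)
    have h4 : f (Complex.exp ((φ t : ℝ) * Complex.I)) = Real.sqrt (h t ^ 2 + h1 t ^ 2) := by
      exact inv_eq_of_mul_eq_one_left h3
    rw [h4, Real.sq_sqrt (hsum t).le]
  -- substitution
  have hsub : ∫ t in (-π)..π, f (Complex.exp ((φ t : ℝ) * Complex.I)) ^ 2 / 2 *
      ((h t ^ 2 + h t * h2 t) / (h t ^ 2 + h1 t ^ 2)) =
      ∫ u in (φ (-π))..(φ π), f (Complex.exp (u * Complex.I)) ^ 2 / 2 := by
    have h3 : Continuous fun t => (h t ^ 2 + h t * h2 t) / (h t ^ 2 + h1 t ^ 2) :=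
      ((hhc.pow 2).add (hhc.mul hcont)).div ((hhc.pow 2).add (hh1c.pow 2)) fun t => (hsum t).ne'
    have h4 : Continuous fun u : ℝ => f (Complex.exp (u * Complex.I)) ^ 2 / 2 :=
      (hfe.pow 2).div_const 2
    exact intervalIntegral.integral_comp_mul_deriv (fun t _ => hφd t) h3.continuousOn h4
  have hφper : φ π = φ (-π) + 2 * π := by
    have h3 : h π = h (-π) := by
      have := hper (-π)
      rw [show -π + 2 * π = π by ring] at this
      exact this
    have h4 : h1 π = h1 (-π) := by
      have := hper1 (-π)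
      rw [show -π + 2 * π = π by ring] at this
      exact this
    rw [hφ]
    show π + Real.arctan (h1 π / h π) = -π + Real.arctan (h1 (-π) / h (-π)) + 2 * π
    rw [h3, h4]
    ring
  have hperiodic : Function.Periodic (fun u : ℝ => f (Complex.exp (u * Complex.I)) ^ 2 / 2)
      (2 * π) := by
    intro u
    show f (Complex.exp (((u + 2 * π : ℝ) : ℂ) * Complex.I)) ^ 2 / 2 = _
    rw [hexp]
  have hshift : ∫ u in (φ (-π))..(φ π), f (Complex.exp (u * Complex.I)) ^ 2 / 2 =
      ∫ u in (-π)..π, f (Complex.exp (u * Complex.I)) ^ 2 / 2 := by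
    rw [hφper]
    have h3 := hperiodic.intervalIntegral_add_eq (φ (-π)) (-π)
    rw [h3, show -π + 2 * π = π by ring]
  rw [hvol, ← hshift, ← hsub]
  have h3 : ∀ t, f (Complex.exp ((φ t : ℝ) * Complex.I)) ^ 2 / 2 *
      ((h t ^ 2 + h t * h2 t) / (h t ^ 2 + h1 t ^ 2)) =
      (h t ^ 2 - h1 t ^ 2) / 2 + (h1 t * h1 t + h t * h2 t) / 2 := by
    intro t
    rw [hgφ]
    have := (hsum t).ne'
    field_simp
    ring
  rw [intervalIntegral.integral_congr (g := fun t => (h t ^ 2 - h1 t ^ 2) / 2 +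
    (h1 t * h1 t + h t * h2 t) / 2) fun t _ => h3 t]
  rw [intervalIntegral.integral_add]
  · have h4 : ∫ t in (-π)..π, (h1 t * h1 t + h t * h2 t) / 2 = 0 := by
      have h5 : ∀ t ∈ uIcc (-π) π, HasDerivAt (fun s => h s * h1 s / 2)
          ((h1 t * h1 t + h t * h2 t) / 2) t := fun t _ => ((hh1 t).mul (hh2 t)).div_const 2
      rw [intervalIntegral.integral_eq_sub_of_hasDerivAt h5]
      · have h6 : h π = h (-π) := by
          have := hper (-π)
          rw [show -π + 2 * π = π by ring] at this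
          exact this
        have h7 : h1 π = h1 (-π) := by
          have := hper1 (-π)
          rw [show -π + 2 * π = π by ring] at this
          exact this
        rw [h6, h7, sub_self]
      · exact (((hh1c.mul hh1c).add (hhc.mul hcont)).div_const 2).intervalIntegrable _ _
    rw [h4, add_zero]
  · exact (((hhc.pow 2).sub (hh1c.pow 2)).div_const 2).intervalIntegrable _ _
  · exact (((hh1c.mul hh1c).add (hhc.mul hcont)).div_const 2).intervalIntegrable _ _

end Pool.Agent.Helper35.PB
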