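import Pool.Agent.Helper35.PB.Inv

/-!
# MP_8ad3e9_gt: a polynomial with constant `GG` is affine on the unit sphere

The first lemmas are those of `Helper85/BD/PolyMain.lean` (which are private there).
-/

set_option autoImplicit false

open MeasureTheory Set
open scoped MeasureTheory Real

namespace Pool.Agent.Helper35.PB

open Pool.Agent.Helper85.BD

/-- The form `x² + y² + z²`. -/
private noncomputable def pm_s : MvPolynomial (Fin 3) ℝ :=
  MvPolynomial.X 0 ^ 2 + MvPolynomial.X 1 ^ 2 + MvPolynomial.X 2 ^ 2

private lemma pm_s_hom : pm_s.IsHomogeneous 2 := by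
  unfold pm_s
  have h : ∀ i : Fin 3, (MvPolynomial.X i ^ 2 : MvPolynomial (Fin 3) ℝ).IsHomogeneous 2 := by
    intro i
    simpa using (MvPolynomial.isHomogeneous_X ℝ i).pow 2
  exact ((h 0).add (h 1)).add (h 2)

private lemma pm_s_ne : pm_s ≠ 0 := by
  intro h
  have h2 := congrArg (MvPolynomial.eval fun _ : Fin 3 => (1 : ℝ)) h
  unfold pm_s at h2
  norm_num at h2

private lemma pm_s_ev (v : E3) : MvPolynomial.eval (fun i => v i) pm_s = ‖v‖ ^ 2 := by
  rw [EuclideanSpace.real_norm_sq_eq, Fin.sum_univ_three]
  simp [pm_s]

private lemma pm_base {p : MvPolynomial (Fin 3) ℝ} (hp : p.totalDegree ≤ 1) (v : E3) :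
    ev p v = MvPolynomial.coeff 0 p +
      ∑ i : Fin 3, MvPolynomial.coeff (Finsupp.single i 1) p * v i := by
  have key : p = MvPolynomial.C (MvPolynomial.coeff 0 p) +
      ∑ i : Fin 3, MvPolynomial.C (MvPolynomial.coeff (Finsupp.single i 1) p) *
        MvPolynomial.X i := by
    ext d
    rw [MvPolynomial.coeff_add, MvPolynomial.coeff_C, MvPolynomial.coeff_sum]
    simp only [MvPolynomial.coeff_C_mul, MvPolynomial.coeff_X]
    by_cases hd0 : d = 0
    · subst hd0
      simp
    by_cases hd : ∃ i : Fin 3, d = Finsupp.single i 1
    · obtain ⟨i, rfl⟩ := hd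
      rw [if_neg (by intro h; exact hd0 h.symm)]
      rw [Finset.sum_eq_single i]
      · simp
      · intro j _ hj
        rw [if_neg, mul_zero]
        intro h
        rw [Finsupp.single_eq_single_iff] at h
        rcases h with ⟨h, _⟩ | ⟨h, _⟩
        · exact hj h
        · exact one_ne_zero h
      · intro h
        exact absurd (Finset.mem_univ i) h
    · rw [if_neg (fun h => hd0 h.symm), Finset.sum_eq_zero, add_zero]
      · apply MvPolynomial.coeff_eq_zero_of_totalDegree_lt
        refine lt_of_le_of_lt hp ?_
        by_contra hlt
        push Not at hlt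
        have h3 : d 0 + d 1 + d 2 ≤ 1 := by
          have : ∑ i ∈ d.support, d i = ∑ i, d i := by
            apply Finset.sum_subset (Finset.subset_univ _)
            intro i _ hi
            rwa [Finsupp.notMem_support_iff] at hi
          rw [this, Fin.sum_univ_three] at hlt
          exact hlt
        have h4 : d 0 ≠ 0 ∨ d 1 ≠ 0 ∨ d 2 ≠ 0 := by
          by_contra h
          push Not at h
          apply hd0
          ext i
          fin_cases i
          · exact h.1
          · exact h.2.1
          · exact h.2.2
        rcases h4 with h4 | h4 | h4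
        · apply hd
          refine ⟨0, ?_⟩
          ext i
          fin_cases i
          · show d 0 = (Finsupp.single (0 : Fin 3) 1 : Fin 3 →₀ ℕ) 0
            rw [Finsupp.single_eq_same]
            omega
          · show d 1 = _
            rw [Finsupp.single_eq_of_ne (by decide)]
            omega
          · show d 2 = _
            rw [Finsupp.single_eq_of_ne (by decide)]
            omega
        · apply hd
          refine ⟨1, ?_⟩
          ext i
          fin_cases i
          · show d 0 = _
            rw [Finsupp.single_eq_of_ne (by decide)]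
            omega
          · show d 1 = (Finsupp.single (1 : Fin 3) 1 : Fin 3 →₀ ℕ) 1
            rw [Finsupp.single_eq_same]
            omega
          · show d 2 = _
            rw [Finsupp.single_eq_of_ne (by decide)]
            omega
        · apply hd
          refine ⟨2, ?_⟩
          ext i
          fin_cases i
          · show d 0 = _
            rw [Finsupp.single_eq_of_ne (by decide)]
            omega
          · show d 1 = _
            rw [Finsupp.single_eq_of_ne (by decide)]
            omega
          · show d 2 = (Finsupp.single (2 : Fin 3) 1 : Fin 3 →₀ ℕ) 2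
            rw [Finsupp.single_eq_same]
            omega
      · intro i _
        rw [if_neg, mul_zero]
        intro h
        exact hd ⟨i, h.symm⟩
  conv_lhs => rw [key]
  unfold ev
  simp

private lemma pm_sub {N : ℕ} {p : MvPolynomial (Fin 3) ℝ} (hp : p.totalDegree ≤ N + 1) :
    (p - MvPolynomial.homogeneousComponent (N + 1) p).totalDegree ≤ N := by
  rw [MvPolynomial.totalDegree_eq]
  apply Finset.sup_le
  intro d hd
  rw [MvPolynomial.mem_support_iff, MvPolynomial.coeff_sub,
    MvPolynomial.coeff_homogeneousComponent] at hd
  have h1 : d.degree ≠ N + 1 := by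
    intro h
    rw [if_pos h, sub_self] at hd
    exact hd rfl
  rw [if_neg h1, sub_zero] at hd
  have h2 := MvPolynomial.le_totalDegree (MvPolynomial.mem_support_iff.mpr hd)
  have h3 : (d.sum fun _ e => e) = d.degree := rfl
  rw [h3] at h2
  rw [Finsupp.card_toMultiset]
  change d.degree ≤ N
  omega

/-- Induction on `N`, as for `VV`. -/
theorem affine_of_const2 (N : ℕ) (p : MvPolynomial (Fin 3) ℝ) (hp : p.totalDegree ≤ N)
    (h : ∀ b b' : OrthonormalBasis (Fin 3) ℝ E3, GG (ev p) b = GG (ev p) b') :
    ∃ (c : ℝ) (a : E3), ∀ v : E3, ‖v‖ = 1 → ev p v = c + (inner ℝ a v : ℝ) := by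
  induction N generalizing p with
  | zero =>
    refine ⟨MvPolynomial.coeff 0 p,
      WithLp.toLp 2 fun i => MvPolynomial.coeff (Finsupp.single i 1) p, fun v _ => ?_⟩
    rw [pm_base (hp.trans zero_le_one), PiLp.inner_apply]
    simp [mul_comm]
  | succ N ih =>
    rcases Nat.eq_zero_or_pos N with h0 | h0
    · subst h0
      refine ⟨MvPolynomial.coeff 0 p,
        WithLp.toLp 2 fun i => MvPolynomial.coeff (Finsupp.single i 1) p, fun v _ => ?_⟩
      rw [pm_base hp, PiLp.inner_apply]
      simp [mul_comm]
    · have hq : (MvPolynomial.homogeneousComponent (N + 1) p).IsHomogeneous (N + 1) :=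
        MvPolynomial.homogeneousComponent_isHomogeneous (N + 1) p
      obtain ⟨q, hq2⟩ := dvd_of_null hq (null_cone2 (by omega) hp h)
      change _ = pm_s * q at hq2
      have hqd : q.totalDegree ≤ N := by
        rcases eq_or_ne q 0 with h1 | h1
        · rw [h1, MvPolynomial.totalDegree_zero]
          exact Nat.zero_le N
        · have h2 := MvPolynomial.totalDegree_mul_of_isDomain pm_s_ne h1
          have h3 : (pm_s * q).totalDegree = N + 1 := by
            rw [← hq2]
            apply hq.totalDegree
            rw [hq2]
            exact mul_ne_zero pm_s_ne h1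
          have h4 := pm_s_hom.totalDegree pm_s_ne
          omega
      have hsame : ∀ v : E3, ‖v‖ = 1 →
          ev (p - MvPolynomial.homogeneousComponent (N + 1) p + q) v = ev p v := by
        intro v hv
        unfold ev
        rw [map_add, map_sub, hq2, map_mul, pm_s_ev, hv]
        ring
      have hdeg : (p - MvPolynomial.homogeneousComponent (N + 1) p + q).totalDegree ≤ N :=
        (MvPolynomial.totalDegree_add _ _).trans (max_le (pm_sub hp) hqd)
      have hGG : ∀ b : OrthonormalBasis (Fin 3) ℝ E3,
          GG (ev (p - MvPolynomial.homogeneousComponent (N + 1) p + q)) b = GG (ev p) b :=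
        fun b => GG_congr (contDiff_ev _) (contDiff_ev _) hsame b
      obtain ⟨c, a, hca⟩ := ih (p - MvPolynomial.homogeneousComponent (N + 1) p + q) hdeg
        (fun b b' => by rw [hGG, hGG]; exact h b b')
      exact ⟨c, a, fun v hv => by rw [← hsame v hv]; exact hca v hv⟩

end Pool.Agent.Helper35.PB
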