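import Pool.Agent.Helper35.PB.Area
import Pool.Agent.Helper35.PB.Poly
import Pool.Agent.Helper35.PB.Base
import Pool.Agent.Helper83.BO.Ball

/-!
# MP_8ad3e9_gt: constant brightness and polynomial support functions
-/

set_option autoImplicit false

open MeasureTheory Set
open scoped MeasureTheory Real

namespace Pool.Agent.Helper35.PB

open Pool.Agent.Helper85.BD

private theorem contDiff_cir (b : OrthonormalBasis (Fin 3) ℝ E3) (p : MvPolynomial (Fin 3) ℝ) :
    ContDiff ℝ 2 (fun t : ℝ => ev p (cir b t)) := by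
  induction p using MvPolynomial.induction_on with
  | C a =>
    have : (fun t : ℝ => ev (MvPolynomial.C a) (cir b t)) = fun _ => a := by
      funext v; simp [ev]
    rw [this]
    exact contDiff_const
  | add p q hp hq =>
    have : (fun t : ℝ => ev (p + q) (cir b t)) =
        fun t => ev p (cir b t) + ev q (cir b t) := by
      funext v; simp [ev]
    rw [this]
    exact hp.add hq
  | mul_X p i hp =>
    have : (fun t : ℝ => ev (p * MvPolynomial.X i) (cir b t)) =
        fun t => ev p (cir b t) * (Real.cos t * b 1 i + Real.sin t * b 2 i) := by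
      funext t
      simp [ev, cir]
    rw [this]
    exact hp.mul ((Real.contDiff_cos.mul contDiff_const).add
      (Real.contDiff_sin.mul contDiff_const))

private theorem hasDerivAt_cir (b : OrthonormalBasis (Fin 3) ℝ E3) (t : ℝ) :
    HasDerivAt (cir b) (tan b t) t := by
  have h := ((Real.hasDerivAt_cos t).smul_const (b 1)).add
    ((Real.hasDerivAt_sin t).smul_const (b 2))
  exact h

private theorem hasDerivAt_ev (b : OrthonormalBasis (Fin 3) ℝ E3) (p : MvPolynomial (Fin 3) ℝ)
    (t : ℝ) : HasDerivAt (fun t : ℝ => ev p (cir b t)) (fderiv ℝ (ev p) (cir b t) (tan b t)) t :=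
  ((contDiff_ev p).differentiable one_ne_zero (cir b t)).hasFDerivAt.comp_hasDerivAt t
    (hasDerivAt_cir b t)

private theorem crd_sub (b : OrthonormalBasis (Fin 3) ℝ E3) (x y : E3) :
    crd b (x - y) = crd b x - crd b y := by
  unfold crd
  apply Complex.ext
  · show (inner ℝ (b 1) (x - y) : ℝ) = _
    rw [inner_sub_right]
    rfl
  · show (inner ℝ (b 2) (x - y) : ℝ) = _
    rw [inner_sub_right]
    rfl

private theorem convex_crd (b : OrthonormalBasis (Fin 3) ℝ E3) {K : Set E3} (hc : Convex ℝ K) :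
    Convex ℝ (crd b '' K) := by
  rintro _ ⟨x, hx, rfl⟩ _ ⟨y, hy, rfl⟩ s t hs ht hst
  refine ⟨s • x + t • y, hc hx hy hs ht hst, ?_⟩
  unfold crd
  apply Complex.ext
  · show (inner ℝ (b 1) (s • x + t • y) : ℝ) = _
    rw [inner_add_right, real_inner_smul_right, real_inner_smul_right]
    simp
  · show (inner ℝ (b 2) (s • x + t • y) : ℝ) = _
    rw [inner_add_right, real_inner_smul_right, real_inner_smul_right]
    simp

private theorem crd_pt (b : OrthonormalBasis (Fin 3) ℝ E3) (z : ℂ) : crd b (pt b z) = z := by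
  have h1 := inner_frame b 1 0 z.re z.im
  have h2 := inner_frame b 0 1 z.re z.im
  rw [one_smul, zero_smul, add_zero, one_mul, zero_mul, add_zero] at h1
  rw [one_smul, zero_smul, zero_add, one_mul, zero_mul, zero_add] at h2
  exact Complex.ext h1 h2

private theorem nhds_crd (b : OrthonormalBasis (Fin 3) ℝ E3) {K : Set E3}
    (h0 : K ∈ nhds (0 : E3)) : crd b '' K ∈ nhds (0 : ℂ) := by
  obtain ⟨ε, hε, hball⟩ := Metric.mem_nhds_iff.1 h0
  refine Metric.mem_nhds_iff.2 ⟨ε, hε, fun z hz => ⟨pt b z, hball ?_, crd_pt b z⟩⟩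
  rw [Metric.mem_ball, dist_zero_right] at hz ⊢
  rw [norm_pt_eq]
  exact hz

/-- The area of the projection from the polynomial. -/
theorem area_frame {K : Set E3} (hK : IsCompact K) (hc : Convex ℝ K) (h0 : K ∈ nhds (0 : E3))
    (b : OrthonormalBasis (Fin 3) ℝ E3) {p : MvPolynomial (Fin 3) ℝ}
    (hp : ∀ s, supp K (cir b s) = ev p (cir b s)) :
    (volume (crd b '' K)).toReal = π * GG (ev p) b := by
  have hd2 : ContDiff ℝ (1 + 1) (fun t : ℝ => ev p (cir b t)) := by
    have h := contDiff_cir b p
    norm_num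
    exact h
  have hd1 := (contDiff_succ_iff_deriv.1 hd2).2.2
  have hder : deriv (fun t : ℝ => ev p (cir b t)) =
      fun t => fderiv ℝ (ev p) (cir b t) (tan b t) :=
    funext fun t => (hasDerivAt_ev b p t).deriv
  rw [hder] at hd1
  have h1d : ∀ t, HasDerivAt (fun t => fderiv ℝ (ev p) (cir b t) (tan b t))
      (deriv (fun t => fderiv ℝ (ev p) (cir b t) (tan b t)) t) t := fun t =>
    (hd1.differentiable one_ne_zero t).hasDerivAt
  have hne : K.Nonempty := ⟨0, mem_of_mem_nhds h0⟩
  have harea := area_eq (hK.image (continuous_crd' b)) (convex_crd b hc) (nhds_crd b h0)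
    (hasDerivAt_ev b p) h1d (hd1.continuous_deriv le_rfl)
    (by
      rintro _ ⟨x, hx, rfl⟩ t
      rw [dotc_crd, pt_exp, ← hp]
      exact le_supp hK hx _)
    (by
      intro t
      obtain ⟨x, hx, hx'⟩ := exists_supp hK hne (cir b t)
      refine ⟨crd b x, mem_image_of_mem _ hx, ?_⟩
      rw [dotc_crd, pt_exp, hx', hp])
  rw [harea]
  have hcont : Continuous fun t : ℝ => ev p (cir b t) := (contDiff_cir b p).continuous
  have hcont1 : Continuous fun t => fderiv ℝ (ev p) (cir b t) (tan b t) := hd1.continuous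
  have hsub : ∫ t in (-π)..π, (ev p (cir b t) ^ 2 - fderiv ℝ (ev p) (cir b t) (tan b t) ^ 2) =
      (∫ t in (-π)..π, ev p (cir b t) ^ 2) -
        ∫ t in (-π)..π, fderiv ℝ (ev p) (cir b t) (tan b t) ^ 2 :=
    intervalIntegral.integral_sub ((hcont.pow 2).intervalIntegrable _ _)
      ((hcont1.pow 2).intervalIntegrable _ _)
  unfold GG mean
  rw [intervalIntegral.integral_div, hsub]
  have := Real.pi_pos
  field_simp

/-- If the projection areas are constant and the support function is a polynomial near the great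
circle orthogonal to `e0`, then the polynomial is affine on the sphere. -/
theorem affine_near {K : Set E3} (hK : IsCompact K) (hc : Convex ℝ K) (hint : (interior K).Nonempty)
    {d : ENNReal} (hP : ∀ e : E3, ‖e‖ = 1 → projArea K e = d) {e0 : E3} (he0 : ‖e0‖ = 1)
    {ε : ℝ} (hε : 0 < ε) {p : MvPolynomial (Fin 3) ℝ}
    (hp : ∀ v : E3, ‖v‖ = 1 → |(inner ℝ e0 v : ℝ)| < ε → supp K v = ev p v) :
    ∃ (c : ℝ) (a : E3), ∀ v : E3, ‖v‖ = 1 → ev p v = c + (inner ℝ a v : ℝ) := by
  obtain ⟨x0, hx0⟩ := hint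
  obtain ⟨cH, hcH0, hcHt, hH⟩ := exists_haus
  set K' : Set E3 := (fun x => x - x0) '' K with hK'
  have hKc' : IsCompact K' := hK.image (by fun_prop)
  have hcv' : Convex ℝ K' := by
    rintro _ ⟨x, hx, rfl⟩ _ ⟨y, hy, rfl⟩ s t hs ht hst
    refine ⟨s • x + t • y, hc hx hy hs ht hst, ?_⟩
    show s • x + t • y - x0 = s • (x - x0) + t • (y - x0)
    have : x0 = (s + t) • x0 := by rw [hst, one_smul]
    conv_lhs => rw [this]
    module
  have h0' : K' ∈ nhds (0 : E3) := by
    have h1 : K' = (fun y => y + x0) ⁻¹' K := by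
      ext y
      constructor
      · rintro ⟨x, hx, rfl⟩
        show x - x0 + x0 ∈ K
        rw [sub_add_cancel]
        exact hx
      · intro hy
        exact ⟨y + x0, hy, add_sub_cancel_right y x0⟩
    rw [h1]
    have h2 : Continuous fun y : E3 => y + x0 := by fun_prop
    refine h2.continuousAt.preimage_mem_nhds ?_
    show K ∈ nhds ((0 : E3) + x0)
    rw [zero_add]
    exact mem_interior_iff_mem_nhds.1 hx0
  have hsupp : ∀ v, supp K' v = supp K v - (inner ℝ v x0 : ℝ) := by
    intro v
    have hne : K.Nonempty := ⟨x0, interior_subset hx0⟩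
    apply le_antisymm
    · obtain ⟨_, ⟨x, hx, rfl⟩, hx'⟩ := exists_supp hKc' (hne.image _) v
      rw [← hx', inner_sub_right]
      exact sub_le_sub_right (le_supp hK hx v) _
    · obtain ⟨x, hx, hx'⟩ := exists_supp hK hne v
      rw [← hx', ← inner_sub_right]
      exact le_supp hKc' (mem_image_of_mem _ hx) v
  set p' : MvPolynomial (Fin 3) ℝ :=
    p - ∑ i : Fin 3, MvPolynomial.C (x0 i) * MvPolynomial.X i with hp'
  have hevp : ∀ v, ev p' v = ev p v - (inner ℝ v x0 : ℝ) := by
    intro v
    unfold ev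
    rw [hp', PiLp.inner_apply]
    simp
  have hG : ∀ B : OrthonormalBasis (Fin 3) ℝ E3, ‖B 0 - e0‖ < ε →
      GG (ev p') B = (d / cH).toReal / π := by
    intro B hB
    have h1 : ∀ s, supp K' (cir B s) = ev p' (cir B s) := by
      intro s
      rw [hsupp, hevp, hp _ (norm_cir' B s)]
      have h2 : (inner ℝ e0 (cir B s) : ℝ) = inner ℝ (e0 - B 0) (cir B s) := by
        rw [inner_sub_left, inner_zero_cir, sub_zero]
      rw [h2]
      refine lt_of_le_of_lt (abs_real_inner_le_norm _ _) ?_
      rw [norm_cir', mul_one, norm_sub_rev]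
      exact hB
    have h2 := area_frame hKc' hcv' h0' B h1
    have h3 : volume (crd B '' K') = volume (crd B '' K) := by
      have h4 : crd B '' K' = (fun z => z + crd B x0) ⁻¹' (crd B '' K) := by
        ext z
        constructor
        · rintro ⟨_, ⟨x, hx, rfl⟩, rfl⟩
          show crd B (x - x0) + crd B x0 ∈ crd B '' K
          rw [crd_sub, sub_add_cancel]
          exact mem_image_of_mem _ hx
        · rintro ⟨x, hx, hxz⟩
          refine ⟨x - x0, mem_image_of_mem _ hx, ?_⟩
          rw [crd_sub, hxz]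
          exact add_sub_cancel_right z (crd B x0)
      rw [h4]
      exact measure_preimage_add_right volume (crd B x0) _
    have h4 := hP (B 0) (B.norm_eq_one 0)
    rw [projArea_eq hH B K] at h4
    have h5 : volume (crd B '' K) = d / cH := (ENNReal.eq_div_iff hcH0 hcHt).2 h4
    rw [h3, h5] at h2
    rw [h2]
    field_simp
  have hall := const_all p' he0 hε hG
  obtain ⟨c, a, hca⟩ := affine_of_const2 p'.totalDegree p' le_rfl fun b b' => by
    rw [hall b, hall b']
  refine ⟨c, a + x0, fun v hv => ?_⟩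
  have h1 := hca v hv
  rw [hevp] at h1
  rw [inner_add_left, real_inner_comm v x0]
  linarith

/-- Constant brightness and a polynomial support function: a ball. -/
theorem ball_of_poly {K : Set E3} (hK : IsCompact K) (hc : Convex ℝ K)
    (hint : (interior K).Nonempty) {d : ENNReal} (hP : ∀ e : E3, ‖e‖ = 1 → projArea K e = d)
    {p : MvPolynomial (Fin 3) ℝ} (hp : ∀ v : E3, ‖v‖ = 1 → supp K v = ev p v) :
    ∃ (z : E3) (r : ℝ), K = Metric.closedBall z r := by
  obtain ⟨e0, he0⟩ : ∃ e : E3, ‖e‖ = 1 := ⟨EuclideanSpace.single 0 1, by simp⟩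
  obtain ⟨c, a, hca⟩ := affine_near hK hc hint hP he0 one_pos fun v hv _ => hp v hv
  exact ⟨a, c, ball_of_supp hc hK (hint.mono interior_subset) fun v hv => by
    rw [hp v hv, hca v hv]⟩

/-- The circle of contact. -/
theorem circle_mem {K : Set E3} (hK : IsCompact K) (hne : K.Nonempty) {e0 a : E3} {ε c : ℝ}
    (hε : 0 < ε)
    (h : ∀ v : E3, ‖v‖ = 1 → |(inner ℝ e0 v : ℝ)| < ε → supp K v = c + (inner ℝ a v : ℝ))
    {v : E3} (hv : ‖v‖ = 1) (hev : (inner ℝ e0 v : ℝ) = 0) : a + c • v ∈ K := by
  obtain ⟨x, hx, hxv⟩ := exists_supp hK hne v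
  rw [h v hv (by rw [hev, abs_zero]; exact hε)] at hxv
  have hvv : (inner ℝ v v : ℝ) = 1 := by rw [real_inner_self_eq_norm_sq, hv, one_pow]
  set u : E3 := x - a - c • v with hu
  have hvu : (inner ℝ v u : ℝ) = 0 := by
    rw [hu, inner_sub_right, inner_sub_right, real_inner_smul_right, hxv, hvv,
      real_inner_comm a v]
    ring
  have hu0 : u = 0 := by
    by_contra hne0
    have hn : ‖u‖ ≠ 0 := norm_ne_zero_iff.2 hne0
    have hn' : 0 < ‖u‖ := norm_pos_iff.2 hne0
    set w : E3 := ‖u‖⁻¹ • u with hw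
    have hw1 : ‖w‖ = 1 := by rw [hw, norm_smul, norm_inv, norm_norm, inv_mul_cancel₀ hn]
    have hvw : (inner ℝ v w : ℝ) = 0 := by rw [hw, real_inner_smul_right, hvu, mul_zero]
    have hwv : (inner ℝ w v : ℝ) = 0 := by rw [real_inner_comm]; exact hvw
    set κ : ℝ := (inner ℝ a w : ℝ) - (inner ℝ w x : ℝ) with hκ
    have hκ0 : κ = 0 := by
      have hmin : IsLocalMin (fun τ : ℝ => c - c * Real.cos τ + κ * Real.sin τ) 0 := by
        have hcont : Continuous fun τ : ℝ =>
            |(inner ℝ e0 (Real.cos τ • v + Real.sin τ • w) : ℝ)| := by fun_prop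
        have h0 : |(inner ℝ e0 (Real.cos 0 • v + Real.sin 0 • w) : ℝ)| < ε := by
          rw [Real.cos_zero, Real.sin_zero, one_smul, zero_smul, add_zero, hev, abs_zero]
          exact hε
        refine (hcont.continuousAt.eventually_lt (continuousAt_const (y := ε)) h0).mono
          fun τ hτ => ?_
        have hunit : ‖Real.cos τ • v + Real.sin τ • w‖ = 1 := by
          have h1 : ‖Real.cos τ • v + Real.sin τ • w‖ ^ 2 = 1 := by
            rw [norm_add_sq_real, norm_smul, norm_smul, hv, hw1, real_inner_smul_left,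
              real_inner_smul_right, hvw, Real.norm_eq_abs, Real.norm_eq_abs, mul_one, mul_one,
              sq_abs, sq_abs]
            linarith [Real.cos_sq_add_sin_sq τ]
          have := norm_nonneg (Real.cos τ • v + Real.sin τ • w)
          nlinarith
        have h1 := le_supp hK hx (Real.cos τ • v + Real.sin τ • w)
        rw [h _ hunit hτ, inner_add_left, inner_add_right, real_inner_smul_left,
          real_inner_smul_left, real_inner_smul_right, real_inner_smul_right, hxv] at h1
        show c - c * Real.cos 0 + κ * Real.sin 0 ≤ c - c * Real.cos τ + κ * Real.sin τ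
        rw [Real.cos_zero, Real.sin_zero, hκ]
        linarith
      have hd : HasDerivAt (fun τ : ℝ => c - c * Real.cos τ + κ * Real.sin τ)
          (-(c * (-Real.sin 0)) + κ * Real.cos 0) 0 :=
        (((Real.hasDerivAt_cos 0).const_mul c).const_sub c).add
          ((Real.hasDerivAt_sin 0).const_mul κ)
      have h1 := hmin.hasDerivAt_eq_zero hd
      rw [Real.sin_zero, Real.cos_zero] at h1
      linarith
    have h2 : (inner ℝ w u : ℝ) = ‖u‖ := by
      rw [hw, real_inner_smul_left, real_inner_self_eq_norm_sq]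
      field_simp
    have h3 : (inner ℝ w u : ℝ) = (inner ℝ w x : ℝ) - (inner ℝ a w : ℝ) := by
      rw [hu, inner_sub_right, inner_sub_right, real_inner_smul_right, hwv, real_inner_comm a w]
      ring
    rw [h2] at h3
    linarith
  have h4 : a + c • v = x := by
    rw [hu, sub_sub, sub_eq_zero] at hu0
    exact hu0.symm
  rw [h4]
  exact hx

/-- Both areas constant and a support function which is a polynomial near one great circle: a
ball. -/
theorem ball_of_band {K : Set E3} (hK : IsCompact K) (hc : Convex ℝ K)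
    (hint : (interior K).Nonempty) {d m : ENNReal} (hP : ∀ e : E3, ‖e‖ = 1 → projArea K e = d)
    (hM : ∀ e : E3, ‖e‖ = 1 → secArea K e = m) {e0 : E3} (he0 : ‖e0‖ = 1) {ε : ℝ} (hε : 0 < ε)
    {p : MvPolynomial (Fin 3) ℝ}
    (hp : ∀ v : E3, ‖v‖ = 1 → |(inner ℝ e0 v : ℝ)| < ε → supp K v = ev p v) :
    ∃ (z : E3) (r : ℝ), K = Metric.closedBall z r := by
  obtain ⟨c, a, hca⟩ := affine_near hK hc hint hP he0 hε hp
  have hne : K.Nonempty := hint.mono interior_subset
  have h : ∀ v : E3, ‖v‖ = 1 → |(inner ℝ e0 v : ℝ)| < ε →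
      supp K v = c + (inner ℝ a v : ℝ) := fun v hv hv' => by rw [hp v hv hv', hca v hv]
  have hee : (inner ℝ e0 e0 : ℝ) = 1 := by rw [real_inner_self_eq_norm_sq, he0, one_pow]
  -- every line parallel to `e0` which meets `K` meets the disc
  have hshadow : ∀ x ∈ K, ∃ l : ℝ, x + l • e0 ∈ K ∧
      inner ℝ e0 (x + l • e0) = (inner ℝ e0 a : ℝ) := by
    intro x hx
    set l : ℝ := (inner ℝ e0 a : ℝ) - (inner ℝ e0 x : ℝ) with hl
    have hy0 : (inner ℝ e0 (x + l • e0) : ℝ) = (inner ℝ e0 a : ℝ) := by
      rw [inner_add_right, real_inner_smul_right, hee, hl]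
      ring
    refine ⟨l, ?_, hy0⟩
    set y : E3 := x + l • e0 with hy
    -- a unit vector in the direction of `y - a`
    obtain ⟨v, ρ, hv, hev, hρ, hyv⟩ : ∃ (v : E3) (ρ : ℝ), ‖v‖ = 1 ∧ (inner ℝ e0 v : ℝ) = 0 ∧
        0 ≤ ρ ∧ y = a + ρ • v := by
      rcases eq_or_ne (y - a) 0 with h0 | h0
      · obtain ⟨b, hb⟩ := exists_basis he0
        refine ⟨b 1, 0, b.norm_eq_one 1, ?_, le_rfl, ?_⟩
        · rw [← hb]
          exact b.inner_eq_zero (by decide)
        · rw [zero_smul, add_zero]
          exact sub_eq_zero.1 h0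
      · have hn : ‖y - a‖ ≠ 0 := norm_ne_zero_iff.2 h0
        refine ⟨‖y - a‖⁻¹ • (y - a), ‖y - a‖, ?_, ?_, norm_nonneg _, ?_⟩
        · rw [norm_smul, norm_inv, norm_norm, inv_mul_cancel₀ hn]
        · rw [real_inner_smul_right, inner_sub_right, hy0, sub_self, mul_zero]
        · rw [smul_smul, mul_inv_cancel₀ hn, one_smul]
          abel
    have hve : (inner ℝ v e0 : ℝ) = 0 := by rw [real_inner_comm]; exact hev
    have hvv : (inner ℝ v v : ℝ) = 1 := by rw [real_inner_self_eq_norm_sq, hv, one_pow]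
    have hnv : ‖-v‖ = 1 := by rw [norm_neg, hv]
    have hnev : (inner ℝ e0 (-v) : ℝ) = 0 := by rw [inner_neg_right, hev, neg_zero]
    have hmem1 := circle_mem hK hne hε h hv hev
    have hmem2 := circle_mem hK hne hε h hnv hnev
    -- `ρ ≤ c`
    have h1 := le_supp hK hx v
    rw [h v hv (by rw [hev, abs_zero]; exact hε)] at h1
    have h2 : (inner ℝ v x : ℝ) = (inner ℝ a v : ℝ) + ρ := by
      have h3 : x = a + ρ • v - l • e0 := by
        rw [← hyv, hy]
        abel
      rw [h3, inner_sub_right, inner_add_right, real_inner_smul_right, real_inner_smul_right,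
        hve, hvv, real_inner_comm a v]
      ring
    have hρc : ρ ≤ c := by linarith
    -- `y` is on the segment
    rcases eq_or_lt_of_le (hρ.trans hρc) with h3 | h3
    · have hρ0 : ρ = 0 := le_antisymm (by rw [h3]; exact hρc) hρ
      rw [hyv, hρ0, zero_smul, add_zero]
      rw [← h3, zero_smul, add_zero] at hmem1
      exact hmem1
    · have h4 := hc hmem1 hmem2 (a := (c + ρ) / (2 * c)) (b := (c - ρ) / (2 * c))
        (div_nonneg (by linarith) (by linarith)) (div_nonneg (by linarith) (by linarith))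
        (by field_simp; ring)
      have h5 : ((c + ρ) / (2 * c)) • (a + c • v) + ((c - ρ) / (2 * c)) • (a + c • -v) =
          a + ρ • v := by
        have h6 : (c + ρ) / (2 * c) + (c - ρ) / (2 * c) = 1 := by field_simp; ring
        have h7 : (c + ρ) / (2 * c) * c - (c - ρ) / (2 * c) * c = ρ := by field_simp; ring
        calc ((c + ρ) / (2 * c)) • (a + c • v) + ((c - ρ) / (2 * c)) • (a + c • -v)
            = ((c + ρ) / (2 * c) + (c - ρ) / (2 * c)) • a +
              ((c + ρ) / (2 * c) * c - (c - ρ) / (2 * c) * c) • v := by module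
          _ = a + ρ • v := by rw [h6, h7, one_smul]
      rw [hyv, ← h5]
      exact h4
  exact Pool.Agent.Helper83.BO.ball_of_const hc hK hint hM hP he0 he0
    (Pool.Agent.Helper83.BO.area_le_of_planar he0 hshadow)

end Pool.Agent.Helper35.PB
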