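import Pool.Agent.Helper35.PB.Null

/-!
# MP_8ad3e9_gt: the functional `GG` depends only on the first vector of the frame, and only on the
values on the unit sphere; constancy near one direction is constancy
-/

set_option autoImplicit false

open MeasureTheory Set
open scoped MeasureTheory Real

namespace Pool.Agent.Helper35.PB

open Pool.Agent.Helper85.BD

theorem inner_frame (b : OrthonormalBasis (Fin 3) ℝ E3) (x1 x2 y1 y2 : ℝ) :
    (inner ℝ (x1 • b 1 + x2 • b 2) (y1 • b 1 + y2 • b 2) : ℝ) = x1 * y1 + x2 * y2 := by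
  have h11 : (inner ℝ (b 1) (b 1) : ℝ) = 1 := by
    rw [real_inner_self_eq_norm_sq, b.norm_eq_one, one_pow]
  have h22 : (inner ℝ (b 2) (b 2) : ℝ) = 1 := by
    rw [real_inner_self_eq_norm_sq, b.norm_eq_one, one_pow]
  have h12 : (inner ℝ (b 1) (b 2) : ℝ) = 0 := b.inner_eq_zero (by decide)
  have h21 : (inner ℝ (b 2) (b 1) : ℝ) = 0 := b.inner_eq_zero (by decide)
  simp only [inner_add_left, inner_add_right, real_inner_smul_left, real_inner_smul_right, h11,
    h22, h12, h21]
  ring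

theorem norm_cir' (b : OrthonormalBasis (Fin 3) ℝ E3) (s : ℝ) : ‖cir b s‖ = 1 := by
  have h : ‖cir b s‖ ^ 2 = 1 := by
    rw [← real_inner_self_eq_norm_sq]
    unfold cir
    rw [inner_frame]
    nlinarith [Real.cos_sq_add_sin_sq s]
  have := norm_nonneg (cir b s)
  nlinarith

theorem norm_tan (b : OrthonormalBasis (Fin 3) ℝ E3) (s : ℝ) : ‖tan b s‖ = 1 := by
  have h : ‖tan b s‖ ^ 2 = 1 := by
    rw [← real_inner_self_eq_norm_sq]
    unfold tan
    rw [inner_frame]
    nlinarith [Real.cos_sq_add_sin_sq s]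
  have := norm_nonneg (tan b s)
  nlinarith

theorem inner_tan_cir (b : OrthonormalBasis (Fin 3) ℝ E3) (s : ℝ) :
    (inner ℝ (tan b s) (cir b s) : ℝ) = 0 := by
  unfold cir tan
  rw [inner_frame]
  ring

theorem inner_zero_cir (b : OrthonormalBasis (Fin 3) ℝ E3) (s : ℝ) :
    (inner ℝ (b 0) (cir b s) : ℝ) = 0 := by
  have h1 : inner ℝ (b 0) (b 1) = (0 : ℝ) := b.orthonormal.inner_eq_zero (by decide)
  have h2 : inner ℝ (b 0) (b 2) = (0 : ℝ) := b.orthonormal.inner_eq_zero (by decide)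
  unfold cir
  rw [inner_add_right, real_inner_smul_right, real_inner_smul_right, h1, h2]
  ring

theorem GG_congr {f g : E3 → ℝ} (hf : ContDiff ℝ 1 f) (hg : ContDiff ℝ 1 g)
    (h : ∀ v : E3, ‖v‖ = 1 → f v = g v) (b : OrthonormalBasis (Fin 3) ℝ E3) :
    GG f b = GG g b := by
  have h1 : (fun s => f (cir b s) ^ 2) = fun s => g (cir b s) ^ 2 := by
    funext s
    rw [h _ (norm_cir' b s)]
  have h2 : (fun s => fderiv ℝ f (cir b s) (tan b s) ^ 2) =
      fun s => fderiv ℝ g (cir b s) (tan b s) ^ 2 := by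
    funext s
    rw [fderiv_congr hf hg h (norm_cir' b s) (norm_tan b s) (inner_tan_cir b s)]
  unfold GG
  rw [h1, h2]

private theorem exists_angle {a c : ℝ} (h : a ^ 2 + c ^ 2 = 1) :
    ∃ α : ℝ, Real.cos α = a ∧ Real.sin α = c := by
  have hz : ‖(⟨a, c⟩ : ℂ)‖ = 1 := by
    have h1 : ‖(⟨a, c⟩ : ℂ)‖ ^ 2 = 1 := by
      rw [Complex.sq_norm, Complex.normSq_apply]
      show a * a + c * c = 1
      nlinarith
    have := norm_nonneg (⟨a, c⟩ : ℂ)
    nlinarith
  refine ⟨Complex.arg ⟨a, c⟩, ?_, ?_⟩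
  · have h1 := Complex.norm_mul_cos_arg (⟨a, c⟩ : ℂ)
    rw [hz, one_mul] at h1
    exact h1
  · have h1 := Complex.norm_mul_sin_arg (⟨a, c⟩ : ℂ)
    rw [hz, one_mul] at h1
    exact h1

private theorem expand (b : OrthonormalBasis (Fin 3) ℝ E3) (x : E3)
    (h : (inner ℝ (b 0) x : ℝ) = 0) :
    x = (inner ℝ (b 1) x : ℝ) • b 1 + (inner ℝ (b 2) x : ℝ) • b 2 := by
  have h1 := b.sum_repr' x
  rw [Fin.sum_univ_three, h, zero_smul, zero_add] at h1
  exact h1.symm

private theorem frame_same {b b' : OrthonormalBasis (Fin 3) ℝ E3} (h0 : b' 0 = b 0) :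
    ∃ α σ : ℝ, (σ = 1 ∨ σ = -1) ∧ (∀ s, cir b' s = cir b (α + σ * s)) ∧
      ∀ s, tan b' s = σ • tan b (α + σ * s) := by
  have hb1 : (inner ℝ (b 0) (b' 1) : ℝ) = 0 := by
    rw [← h0]
    exact b'.inner_eq_zero (by decide)
  have hb2 : (inner ℝ (b 0) (b' 2) : ℝ) = 0 := by
    rw [← h0]
    exact b'.inner_eq_zero (by decide)
  have e1 := expand b _ hb1
  have e2 := expand b _ hb2
  set a : ℝ := (inner ℝ (b 1) (b' 1) : ℝ)
  set c : ℝ := (inner ℝ (b 2) (b' 1) : ℝ)
  set a' : ℝ := (inner ℝ (b 1) (b' 2) : ℝ)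
  set c' : ℝ := (inner ℝ (b 2) (b' 2) : ℝ)
  have n1 : a ^ 2 + c ^ 2 = 1 := by
    have h : (inner ℝ (b' 1) (b' 1) : ℝ) = 1 := by
      rw [real_inner_self_eq_norm_sq, b'.norm_eq_one, one_pow]
    rw [e1, inner_frame] at h
    linarith
  have n2 : a' ^ 2 + c' ^ 2 = 1 := by
    have h : (inner ℝ (b' 2) (b' 2) : ℝ) = 1 := by
      rw [real_inner_self_eq_norm_sq, b'.norm_eq_one, one_pow]
    rw [e2, inner_frame] at h
    linarith
  have n3 : a * a' + c * c' = 0 := by
    have h : (inner ℝ (b' 1) (b' 2) : ℝ) = 0 := b'.inner_eq_zero (by decide)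
    rw [e1, e2, inner_frame] at h
    exact h
  set σ : ℝ := a * c' - c * a' with hσ
  have hσ2 : σ ^ 2 = 1 := by
    have : σ ^ 2 = (a ^ 2 + c ^ 2) * (a' ^ 2 + c' ^ 2) - (a * a' + c * c') ^ 2 := by
      rw [hσ]
      ring
    rw [this, n1, n2, n3]
    norm_num
  have hσ1 : σ = 1 ∨ σ = -1 := mul_self_eq_one_iff.1 (by rw [← hσ2]; ring)
  have ha' : a' = -(σ * c) := by
    have : -(σ * c) = a' * (a ^ 2 + c ^ 2) - a * (a * a' + c * c') := by
      rw [hσ]
      ring
    rw [this, n1, n3]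
    ring
  have hc' : c' = σ * a := by
    have : σ * a = c' * (a ^ 2 + c ^ 2) - c * (a * a' + c * c') := by
      rw [hσ]
      ring
    rw [this, n1, n3]
    ring
  obtain ⟨α, hα1, hα2⟩ := exists_angle n1
  have hcs : ∀ s, Real.cos (σ * s) = Real.cos s := by
    intro s
    rcases hσ1 with h | h
    · rw [h, one_mul]
    · rw [h, neg_one_mul, Real.cos_neg]
  have hsn : ∀ s, Real.sin (σ * s) = σ * Real.sin s := by
    intro s
    rcases hσ1 with h | h
    · rw [h, one_mul, one_mul]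
    · rw [h, neg_one_mul, Real.sin_neg, neg_one_mul]
  refine ⟨α, σ, hσ1, fun s => ?_, fun s => ?_⟩
  · unfold cir
    rw [e1, e2, ha', hc', Real.cos_add, Real.sin_add, hcs, hsn, hα1, hα2]
    module
  · unfold tan
    rw [e1, e2, ha', hc', Real.cos_add, Real.sin_add, hcs, hsn, hα1, hα2]
    have k1 : (-Real.sin s) • (a • b 1 + c • b 2) + Real.cos s • (-(σ * c) • b 1 + (σ * a) • b 2) =
        (-(a * Real.sin s) - σ * c * Real.cos s) • b 1 +
          (-(c * Real.sin s) + σ * a * Real.cos s) • b 2 := by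
      module
    have k2 : σ • (-(c * Real.cos s + a * (σ * Real.sin s)) • b 1 +
        (a * Real.cos s - c * (σ * Real.sin s)) • b 2) =
        (-(σ ^ 2 * (a * Real.sin s)) - σ * c * Real.cos s) • b 1 +
          (-(σ ^ 2 * (c * Real.sin s)) + σ * a * Real.cos s) • b 2 := by
      module
    rw [k1, k2, hσ2, one_mul, one_mul]

private theorem mean_shift {u : ℝ → ℝ} (hu : Function.Periodic u (2 * π)) {α σ : ℝ}
    (hσ : σ = 1 ∨ σ = -1) : mean (fun s => u (α + σ * s)) = mean u := by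
  unfold mean
  congr 1
  rcases hσ with h | h
  · subst h
    simp only [one_mul]
    rw [intervalIntegral.integral_comp_add_left (fun s => u s) α]
    have h3 := hu.intervalIntegral_add_eq (α + -π) (-π)
    rw [show α + -π + 2 * π = α + π by ring, show -π + 2 * π = π by ring] at h3
    exact h3
  · subst h
    simp only [neg_one_mul, ← sub_eq_add_neg]
    rw [intervalIntegral.integral_comp_sub_left (fun s => u s) α]
    have h3 := hu.intervalIntegral_add_eq (α - π) (-π)
    rw [show α - π + 2 * π = α - -π by ring, show -π + 2 * π = π by ring] at h3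
    exact h3

/-- The functional depends only on the first vector of the frame. -/
theorem GG_frame (phi : E3 → ℝ) {b b' : OrthonormalBasis (Fin 3) ℝ E3} (h0 : b' 0 = b 0) :
    GG phi b' = GG phi b := by
  obtain ⟨α, σ, hσ, h1, h2⟩ := frame_same h0
  have hσ2 : σ ^ 2 = 1 := by
    rcases hσ with h | h <;> rw [h] <;> norm_num
  have hp1 : Function.Periodic (fun s => phi (cir b s) ^ 2) (2 * π) := by
    intro s
    show phi (cir b (s + 2 * π)) ^ 2 = phi (cir b s) ^ 2
    unfold cir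
    rw [Real.cos_add_two_pi, Real.sin_add_two_pi]
  have hp2 : Function.Periodic (fun s => fderiv ℝ phi (cir b s) (tan b s) ^ 2) (2 * π) := by
    intro s
    show fderiv ℝ phi (cir b (s + 2 * π)) (tan b (s + 2 * π)) ^ 2 = _
    unfold cir tan
    rw [Real.cos_add_two_pi, Real.sin_add_two_pi]
  have k1 : (fun s => phi (cir b' s) ^ 2) = fun s => (fun s => phi (cir b s) ^ 2) (α + σ * s) := by
    funext s
    rw [h1]
  have k2 : (fun s => fderiv ℝ phi (cir b' s) (tan b' s) ^ 2) =
      fun s => (fun s => fderiv ℝ phi (cir b s) (tan b s) ^ 2) (α + σ * s) := by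
    funext s
    rw [h1, h2, map_smul, smul_eq_mul, mul_pow, hσ2, one_mul]
  unfold GG
  rw [k1, k2, mean_shift hp1 hσ, mean_shift hp2 hσ]

private theorem exists_basis2 {e f : E3} (he : ‖e‖ = 1) (hf : ‖f‖ = 1)
    (hef : (inner ℝ e f : ℝ) = 0) :
    ∃ b : OrthonormalBasis (Fin 3) ℝ E3, b 0 = e ∧ b 1 = f := by
  have hfe : (inner ℝ f e : ℝ) = 0 := by rw [real_inner_comm]; exact hef
  have hv : Orthonormal ℝ (({0, 1} : Set (Fin 3)).domRestrict ![e, f, 0]) := by
    rw [orthonormal_iff_ite]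
    rintro ⟨i, hi⟩ ⟨j, hj⟩
    have hee : (inner ℝ e e : ℝ) = 1 := by rw [real_inner_self_eq_norm_sq, he, one_pow]
    have hff : (inner ℝ f f : ℝ) = 1 := by rw [real_inner_self_eq_norm_sq, hf, one_pow]
    rcases hi with hi | hi
    · rcases hj with hj | hj
      · subst hi; subst hj
        simpa using hee
      · rw [mem_singleton_iff] at hj
        subst hi; subst hj
        simpa using hef
    · rw [mem_singleton_iff] at hi
      rcases hj with hj | hj
      · subst hi; subst hj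
        simpa using hfe
      · rw [mem_singleton_iff] at hj
        subst hi; subst hj
        simpa using hff
  obtain ⟨b, hb⟩ := hv.exists_orthonormalBasis_extension_of_card_eq
    (by rw [finrank_euclideanSpace])
  exact ⟨b, hb 0 (by simp), hb 1 (by simp)⟩

/-- Two unit vectors lie in the plane of the first two vectors of a frame. -/
private theorem exists_pair {e e' : E3} (he : ‖e‖ = 1) (he' : ‖e'‖ = 1) :
    ∃ (b : OrthonormalBasis (Fin 3) ℝ E3) (t : ℝ), b 0 = e ∧
      e' = Real.cos t • b 0 + Real.sin t • b 1 := by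
  have hee : (inner ℝ e e : ℝ) = 1 := by rw [real_inner_self_eq_norm_sq, he, one_pow]
  have hee' : (inner ℝ e' e' : ℝ) = 1 := by rw [real_inner_self_eq_norm_sq, he', one_pow]
  set a : ℝ := (inner ℝ e e' : ℝ) with ha
  set w : E3 := e' - a • e with hw
  have hew : (inner ℝ e w : ℝ) = 0 := by
    rw [hw, inner_sub_right, real_inner_smul_right, hee, ← ha]
    ring
  have hww : ‖w‖ ^ 2 = 1 - a ^ 2 := by
    rw [← real_inner_self_eq_norm_sq, hw, inner_sub_left, inner_sub_right, inner_sub_right,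
      real_inner_smul_left, real_inner_smul_left, real_inner_smul_right, real_inner_smul_right,
      hee, hee', real_inner_comm e e', ← ha]
    ring
  rcases eq_or_ne w 0 with h | h
  · obtain ⟨b, hb⟩ : ∃ b : OrthonormalBasis (Fin 3) ℝ E3, b 0 = e := by
      have hv : Orthonormal ℝ (({0} : Set (Fin 3)).domRestrict fun _ : Fin 3 => e) := by
        constructor
        · intro i
          exact he
        · intro i j hij
          exact absurd (Subsingleton.elim i j) hij
      obtain ⟨b, hb⟩ := hv.exists_orthonormalBasis_extension_of_card_eq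
        (by rw [finrank_euclideanSpace])
      exact ⟨b, hb 0 rfl⟩
    have h1 : a ^ 2 + 0 ^ 2 = 1 := by
      rw [h, norm_zero] at hww
      linarith
    obtain ⟨t, ht1, ht2⟩ := exists_angle h1
    refine ⟨b, t, hb, ?_⟩
    rw [ht1, ht2, zero_smul, add_zero, hb]
    exact sub_eq_zero.1 h
  · have hn : ‖w‖ ≠ 0 := norm_ne_zero_iff.2 h
    obtain ⟨b, hb0, hb1⟩ := exists_basis2 (f := ‖w‖⁻¹ • w) he
      (by rw [norm_smul, norm_inv, norm_norm, inv_mul_cancel₀ hn])
      (by rw [real_inner_smul_right, hew, mul_zero])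
    have h1 : a ^ 2 + ‖w‖ ^ 2 = 1 := by linarith
    obtain ⟨t, ht1, ht2⟩ := exists_angle h1
    refine ⟨b, t, hb0, ?_⟩
    rw [ht1, ht2, hb0, hb1, smul_smul, mul_inv_cancel₀ hn, one_smul, hw]
    abel

/-- Constancy near one direction is constancy. -/
theorem const_all (p : MvPolynomial (Fin 3) ℝ) {e0 : E3} (he0 : ‖e0‖ = 1) {C δ : ℝ} (hδ : 0 < δ)
    (h : ∀ B : OrthonormalBasis (Fin 3) ℝ E3, ‖B 0 - e0‖ < δ → GG (ev p) B = C)
    (B : OrthonormalBasis (Fin 3) ℝ E3) : GG (ev p) B = C := by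
  obtain ⟨b, t, hb, hbt⟩ := exists_pair he0 (B.norm_eq_one 0)
  obtain ⟨B', h0, h1, h2⟩ := exists_rot b t
  rw [GG_frame (b := B') (b' := B) _ (by rw [h0, ← hbt])]
  exact propagate p b hδ (by rw [hb]; exact h) t B' h0 h1 h2

end Pool.Agent.Helper35.PB
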