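import Pool.Agent.Helper85.BD.PolyDer
import Pool.Agent.Helper85.BD.NullDiv

/-!
# MP_8ad3e9_gt: constant brightness and polynomial support functions, the top form

Let `p` have degree at most `N`, `2 ≤ N`, let `h(s) = p(cir b s)` be the values of `p` on the great
circle orthogonal to `b 0`, and let the mean of `h² - h'²` be the same for all orthonormal bases
`b`. Then the homogeneous component of degree `N` of `p` vanishes on the null cone
`x² + y² + z² = 0`. Proof: rotate `b` about `b 2` by the angle `t`; then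
`exp(-i t)^N h(s)` and `exp(-i t)^N h'(s)` are polynomials in `y = exp(-i t)`, so the mean of the
difference of the squares is a constant times `y^(2N)` as a polynomial in `y`, and its value at
`y = 0` is zero; this value is the square of the value of the top form at the null vector times
`mean (cos^(2N) - N² sin² cos^(2N-2)) = - (N-1)² mean (sin² cos^(2N-2))`.

The first lemmas are those of `Helper85/BD/Fourier.lean` (which are private there).
-/

set_option autoImplicit false

open MeasureTheory Set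
open scoped MeasureTheory Real

namespace Pool.Agent.Helper35.PB

open Pool.Agent.Helper85.BD

/-- The complex mean over the circle. -/
private noncomputable def Lam (f : ℝ → ℂ) : ℂ := ((2 * π)⁻¹ : ℝ) * ∫ s in (-π)..π, f s

private theorem Lam_add {f g : ℝ → ℂ} (hf : Continuous f) (hg : Continuous g) :
    Lam (fun s => f s + g s) = Lam f + Lam g := by
  unfold Lam
  rw [intervalIntegral.integral_add (hf.intervalIntegrable _ _) (hg.intervalIntegrable _ _), mul_add]

private theorem Lam_mul_const (f : ℝ → ℂ) (c : ℂ) : Lam (fun s => f s * c) = Lam f * c := by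
  unfold Lam
  rw [intervalIntegral.integral_mul_const, mul_assoc]

private theorem Lam_ofReal (f : ℝ → ℝ) : Lam (fun s => ((f s : ℝ) : ℂ)) = ((mean f : ℝ) : ℂ) := by
  unfold Lam mean
  rw [intervalIntegral.integral_ofReal]
  push_cast
  ring

/-- Polynomial dependence on `y` with coefficients continuous in `s`. -/
private def IsPoly (F : ℂ → ℝ → ℂ) : Prop :=
  ∃ P : Polynomial C(ℝ, ℂ), ∀ y s, F y s = (P.eval (algebraMap ℂ C(ℝ, ℂ) y)) s

private theorem algMap_apply (y : ℂ) (s : ℝ) : (algebraMap ℂ C(ℝ, ℂ) y) s = y := by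
  rw [Algebra.algebraMap_eq_smul_one]
  simp

private theorem isPoly_cont {f : ℝ → ℂ} (hf : Continuous f) : IsPoly (fun _ s => f s) :=
  ⟨Polynomial.C ⟨f, hf⟩, fun y s => by simp⟩

private theorem isPoly_const (c : ℂ) : IsPoly (fun _ _ => c) := isPoly_cont continuous_const

private theorem isPoly_y : IsPoly (fun y _ => y) :=
  ⟨Polynomial.X, fun y s => by rw [Polynomial.eval_X]; exact (algMap_apply y s).symm⟩

private theorem IsPoly.add {F G : ℂ → ℝ → ℂ} (hF : IsPoly F) (hG : IsPoly G) :
    IsPoly (fun y s => F y s + G y s) := by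
  obtain ⟨P, hP⟩ := hF
  obtain ⟨Q, hQ⟩ := hG
  exact ⟨P + Q, fun y s => by simp [hP, hQ]⟩

private theorem IsPoly.sub {F G : ℂ → ℝ → ℂ} (hF : IsPoly F) (hG : IsPoly G) :
    IsPoly (fun y s => F y s - G y s) := by
  obtain ⟨P, hP⟩ := hF
  obtain ⟨Q, hQ⟩ := hG
  exact ⟨P - Q, fun y s => by simp [hP, hQ]⟩

private theorem IsPoly.mul {F G : ℂ → ℝ → ℂ} (hF : IsPoly F) (hG : IsPoly G) :
    IsPoly (fun y s => F y s * G y s) := by
  obtain ⟨P, hP⟩ := hF
  obtain ⟨Q, hQ⟩ := hG
  exact ⟨P * Q, fun y s => by simp [hP, hQ]⟩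

private theorem IsPoly.pow {F : ℂ → ℝ → ℂ} (hF : IsPoly F) (n : ℕ) :
    IsPoly (fun y s => F y s ^ n) := by
  obtain ⟨P, hP⟩ := hF
  exact ⟨P ^ n, fun y s => by simp [hP]⟩

private theorem IsPoly.sum {ι : Type} (S : Finset ι) {F : ι → ℂ → ℝ → ℂ}
    (hF : ∀ i ∈ S, IsPoly (F i)) : IsPoly (fun y s => ∑ i ∈ S, F i y s) := by
  classical
  induction S using Finset.induction_on with
  | empty => simpa using isPoly_const 0
  | insert a S ha ih =>
    simp only [Finset.sum_insert ha]
    exact (hF a (Finset.mem_insert_self _ _)).add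
      (ih fun i hi => hF i (Finset.mem_insert_of_mem hi))

private theorem IsPoly.aeval {W : Fin 3 → ℂ → ℝ → ℂ} (hW : ∀ j, IsPoly (W j))
    (q : MvPolynomial (Fin 3) ℝ) : IsPoly (fun y s => MvPolynomial.aeval (fun j => W j y s) q) := by
  induction q using MvPolynomial.induction_on with
  | C a => simpa using isPoly_const ((a : ℝ) : ℂ)
  | add p q hp hq => simpa using hp.add hq
  | mul_X p i hp => simpa using hp.mul (hW i)

private theorem IsPoly.continuous {F : ℂ → ℝ → ℂ} (hF : IsPoly F) (y : ℂ) :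
    Continuous (F y) := by
  obtain ⟨P, hP⟩ := hF
  have : F y = fun s => (P.eval (algebraMap ℂ C(ℝ, ℂ) y)) s := funext fun s => hP y s
  rw [this]
  exact (P.eval (algebraMap ℂ C(ℝ, ℂ) y)).continuous

/-- The mean of a polynomial in `y` is a polynomial in `y`. -/
private theorem IsPoly.lam {F : ℂ → ℝ → ℂ} (hF : IsPoly F) :
    ∃ Q : Polynomial ℂ, ∀ y, Lam (F y) = Q.eval y := by
  obtain ⟨P, hP⟩ := hF
  have key : ∀ P : Polynomial C(ℝ, ℂ), ∃ Q : Polynomial ℂ, ∀ y,
      Lam (fun s => (P.eval (algebraMap ℂ C(ℝ, ℂ) y)) s) = Q.eval y := by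
    intro P
    induction P using Polynomial.induction_on' with
    | add p q hp hq =>
      obtain ⟨Q1, h1⟩ := hp
      obtain ⟨Q2, h2⟩ := hq
      refine ⟨Q1 + Q2, fun y => ?_⟩
      have h3 : Polynomial.eval y (Q1 + Q2) = Polynomial.eval y Q1 + Polynomial.eval y Q2 :=
        Polynomial.eval_add
      rw [h3, ← h1, ← h2, ← Lam_add (ContinuousMap.continuous _)
        (ContinuousMap.continuous _)]
      simp
    | monomial n a =>
      refine ⟨Polynomial.monomial n (Lam a), fun y => ?_⟩
      have h3 : Polynomial.eval y (Polynomial.monomial n (Lam a)) = Lam a * y ^ n :=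
        Polynomial.eval_monomial
      rw [h3, ← Lam_mul_const]
      congr 1
      funext s
      rw [Polynomial.eval_monomial, ContinuousMap.mul_apply, ContinuousMap.pow_apply,
        algMap_apply]
  obtain ⟨Q, hQ⟩ := key P
  refine ⟨Q, fun y => ?_⟩
  rw [← hQ y]
  congr 1
  funext s
  exact hP y s

/-- A polynomial is determined by its values on an arc. -/
private theorem poly_eq {Q : Polynomial ℂ} {C : ℂ} {M : ℕ} {δ : ℝ} (hδ : 0 < δ)
    (h : ∀ t : ℝ, 0 < t → t < δ → Q.eval (Complex.exp (-(t * Complex.I))) =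
        C * Complex.exp (-(t * Complex.I)) ^ M) :
    Q = Polynomial.C C * Polynomial.X ^ M := by
  have hroot : ∀ t : ℝ, 0 < t → t < δ →
      (Q - Polynomial.C C * Polynomial.X ^ M).IsRoot (Complex.exp (-(t * Complex.I))) := by
    intro t h0 h1
    have := h t h0 h1
    simp only [Polynomial.IsRoot, Polynomial.eval_sub, Polynomial.eval_pow,
      Polynomial.eval_mul, Polynomial.eval_C, Polynomial.eval_X]
    rw [this, sub_self]
  have hinf : {x : ℂ | (Q - Polynomial.C C * Polynomial.X ^ M).IsRoot x}.Infinite := by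
    have hinj : Set.InjOn (fun t : ℝ => Complex.exp (-(t * Complex.I))) (Set.Ioo 0 (min δ 1)) := by
      intro a ha b hb hab
      have ha1 : a < 1 := ha.2.trans_le (min_le_right _ _)
      have hb1 : b < 1 := hb.2.trans_le (min_le_right _ _)
      have hab' : Complex.exp (-(a * Complex.I)) = Complex.exp (-(b * Complex.I)) := hab
      have h3 : (Complex.exp (-(a * Complex.I))).re = (Complex.exp (-(b * Complex.I))).re := by
        rw [hab']
      have h4 : ∀ c : ℝ, (Complex.exp (-(c * Complex.I))).re = Real.cos c := by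
        intro c
        rw [Complex.exp_re]
        simp
      rw [h4, h4] at h3
      have hpi := Real.pi_gt_three
      exact Real.injOn_cos ⟨ha.1.le, by linarith⟩ ⟨hb.1.le, by linarith⟩ h3
    have himg := (Set.Ioo_infinite (show (0 : ℝ) < min δ 1 from lt_min hδ one_pos)).image hinj
    refine himg.mono ?_
    rintro _ ⟨t, ht, rfl⟩
    exact hroot t ht.1 (ht.2.trans_le (min_le_left _ _))
  exact sub_eq_zero.1 (Polynomial.eq_zero_of_infinite_isRoot _ hinf)

private theorem aeval_scale {q : MvPolynomial (Fin 3) ℝ} {k : ℕ} (hq : q.IsHomogeneous k)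
    (x : ℂ) (w : Fin 3 → ℂ) :
    MvPolynomial.aeval (fun j => x * w j) q = x ^ k * MvPolynomial.aeval w q := by
  rw [MvPolynomial.aeval_def, MvPolynomial.aeval_def, MvPolynomial.eval₂_eq',
    MvPolynomial.eval₂_eq', Finset.mul_sum]
  refine Finset.sum_congr rfl fun d hd => ?_
  have hdeg : ∑ i, d i = k := by
    have := hq (MvPolynomial.mem_support_iff.1 hd)
    rw [← this, Finsupp.weight_apply, Finsupp.sum_fintype _ _ (by simp)]
    simp
  simp_rw [mul_pow]
  rw [Finset.prod_mul_distrib, Finset.prod_pow_eq_pow_sum, hdeg]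
  ring

/-- The rotated orthonormal basis. -/
theorem exists_rot (b : OrthonormalBasis (Fin 3) ℝ E3) (t : ℝ) :
    ∃ B : OrthonormalBasis (Fin 3) ℝ E3, B 0 = Real.cos t • b 0 + Real.sin t • b 1 ∧
      B 1 = (-Real.sin t) • b 0 + Real.cos t • b 1 ∧ B 2 = b 2 := by
  have hb : ∀ i j : Fin 3, (inner ℝ (b i) (b j) : ℝ) = if i = j then 1 else 0 :=
    fun i j => (orthonormal_iff_ite.1 b.orthonormal) i j
  set v : Fin 3 → E3 := ![Real.cos t • b 0 + Real.sin t • b 1,
    (-Real.sin t) • b 0 + Real.cos t • b 1, b 2] with hv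
  have hon : Orthonormal ℝ v := by
    rw [orthonormal_iff_ite]
    intro i j
    have hcs := Real.cos_sq_add_sin_sq t
    have key : ∀ c1 c2 c3 d1 d2 d3 : ℝ, (inner ℝ (c1 • b 0 + c2 • b 1 + c3 • b 2)
        (d1 • b 0 + d2 • b 1 + d3 • b 2) : ℝ) = c1 * d1 + c2 * d2 + c3 * d3 := by
      intro c1 c2 c3 d1 d2 d3
      simp [inner_add_left, inner_add_right, inner_smul_left, inner_smul_right, hb]
      ring
    have h0 : v 0 = Real.cos t • b 0 + Real.sin t • b 1 + (0 : ℝ) • b 2 := by simp [hv]
    have h1 : v 1 = (-Real.sin t) • b 0 + Real.cos t • b 1 + (0 : ℝ) • b 2 := by simp [hv]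
    have h2 : v 2 = (0 : ℝ) • b 0 + (0 : ℝ) • b 1 + (1 : ℝ) • b 2 := by simp [hv]
    have hall : ∀ i j : Fin 3, (inner ℝ (v i) (v j) : ℝ) = if i = j then 1 else 0 := by
      intro i j
      fin_cases i <;> fin_cases j
      · change (inner ℝ (v 0) (v 0) : ℝ) = 1
        rw [h0, key]; nlinarith
      · change (inner ℝ (v 0) (v 1) : ℝ) = 0
        rw [h0, h1, key]; ring
      · change (inner ℝ (v 0) (v 2) : ℝ) = 0
        rw [h0, h2, key]; ring
      · change (inner ℝ (v 1) (v 0) : ℝ) = 0
        rw [h0, h1, key]; ring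
      · change (inner ℝ (v 1) (v 1) : ℝ) = 1
        rw [h1, key]; nlinarith
      · change (inner ℝ (v 1) (v 2) : ℝ) = 0
        rw [h1, h2, key]; ring
      · change (inner ℝ (v 2) (v 0) : ℝ) = 0
        rw [h0, h2, key]; ring
      · change (inner ℝ (v 2) (v 1) : ℝ) = 0
        rw [h1, h2, key]; ring
      · change (inner ℝ (v 2) (v 2) : ℝ) = 1
        rw [h2, key]; ring
    exact hall i j
  have hcard : Fintype.card (Fin 3) = Module.finrank ℝ E3 := by simp
  have hspan : ⊤ ≤ Submodule.span ℝ (Set.range v) :=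
    (hon.linearIndependent.span_eq_top_of_card_eq_finrank hcard).ge
  refine ⟨OrthonormalBasis.mk hon hspan, ?_, ?_, ?_⟩ <;> simp [hv]

/-- The tangent vector of the circle. -/
noncomputable def tan (b : OrthonormalBasis (Fin 3) ℝ E3) (s : ℝ) : E3 :=
  (-Real.sin s) • b 1 + Real.cos s • b 2

/-- The mean of `h² - h'²` over the great circle orthogonal to `b 0`. -/
noncomputable def GG (phi : E3 → ℝ) (b : OrthonormalBasis (Fin 3) ℝ E3) : ℝ :=
  mean (fun s => phi (cir b s) ^ 2) - mean (fun s => fderiv ℝ phi (cir b s) (tan b s) ^ 2)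

private theorem mean_cos (N : ℕ) (hN : 1 ≤ N) :
    mean (fun s => (Real.cos s ^ N) ^ 2) =
      (2 * N - 1) * mean (fun s => (Real.sin s * Real.cos s ^ (N - 1)) ^ 2) := by
  obtain ⟨n, rfl⟩ : ∃ n, N = n + 1 := ⟨N - 1, by omega⟩
  have h1 : ∫ s in (-π)..π, Real.cos s ^ (2 * n + 2) =
      (2 * n + 1) / (2 * n + 2) * ∫ s in (-π)..π, Real.cos s ^ (2 * n) := by
    have h := integral_cos_pow (a := -π) (b := π) (2 * n)
    rw [Real.sin_neg, Real.sin_pi] at h
    push_cast at h
    rw [h]
    ring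
  have h2 : ∫ s in (-π)..π, (Real.sin s * Real.cos s ^ n) ^ 2 =
      (∫ s in (-π)..π, Real.cos s ^ (2 * n)) - ∫ s in (-π)..π, Real.cos s ^ (2 * n + 2) := by
    rw [← intervalIntegral.integral_sub]
    · refine intervalIntegral.integral_congr fun s _ => ?_
      show (Real.sin s * Real.cos s ^ n) ^ 2 = Real.cos s ^ (2 * n) - Real.cos s ^ (2 * n + 2)
      have h3 := Real.sin_sq_add_cos_sq s
      have h4 : Real.sin s ^ 2 = 1 - Real.cos s ^ 2 := by linarith
      rw [mul_pow, h4]
      ring
    · exact (Real.continuous_cos.pow _).intervalIntegrable _ _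
    · exact (Real.continuous_cos.pow _).intervalIntegrable _ _
  have h3 : ∫ s in (-π)..π, (Real.cos s ^ (n + 1)) ^ 2 = ∫ s in (-π)..π, Real.cos s ^ (2 * n + 2) := by
    refine intervalIntegral.integral_congr fun s _ => ?_
    show (Real.cos s ^ (n + 1)) ^ 2 = Real.cos s ^ (2 * n + 2)
    ring
  unfold mean
  rw [h3, Nat.add_sub_cancel, h2, h1]
  have h4 : (2 * (n : ℝ) + 2) ≠ 0 := by positivity
  push_cast
  field_simp
  ring

private theorem mean_pos' (N : ℕ) :
    0 < mean (fun s => (Real.sin s * Real.cos s ^ (N - 1)) ^ 2) := by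
  unfold mean
  refine mul_pos (by positivity) ?_
  have hc : Continuous fun s : ℝ => (Real.sin s * Real.cos s ^ (N - 1)) ^ 2 := by fun_prop
  refine intervalIntegral.integral_pos (by linarith [Real.pi_pos]) hc.continuousOn
    (fun s _ => sq_nonneg _) ⟨π / 4, ⟨by linarith [Real.pi_pos], by linarith [Real.pi_pos]⟩, ?_⟩
  have h1 : 0 < Real.sin (π / 4) := Real.sin_pos_of_pos_of_lt_pi (by linarith [Real.pi_pos])
    (by linarith [Real.pi_pos])
  have h2 : 0 < Real.cos (π / 4) := Real.cos_pos_of_mem_Ioo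
    ⟨by linarith [Real.pi_pos], by linarith [Real.pi_pos]⟩
  show 0 < (Real.sin (π / 4) * Real.cos (π / 4) ^ (N - 1)) ^ 2
  positivity

/-- Rotation of the frame `b` about `b 2`: up to a power of `y = exp(-i t)` the functional is a
polynomial in `y`; its value at `y = 0`. -/
theorem rot_poly {N : ℕ} (hN : 1 ≤ N) {p : MvPolynomial (Fin 3) ℝ} (hp : p.totalDegree ≤ N)
    (b : OrthonormalBasis (Fin 3) ℝ E3) :
    ∃ Q : Polynomial ℂ, (∀ (t : ℝ) (B : OrthonormalBasis (Fin 3) ℝ E3),
      B 0 = Real.cos t • b 0 + Real.sin t • b 1 → B 1 = (-Real.sin t) • b 0 + Real.cos t • b 1 →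
      B 2 = b 2 → Q.eval (Complex.exp (-(t * Complex.I))) =
        ((GG (ev p) B : ℝ) : ℂ) * Complex.exp (-(t * Complex.I)) ^ (2 * N)) ∧
      Q.eval 0 = ((-(mean (fun s => (Real.sin s * Real.cos s ^ (N - 1)) ^ 2) *
        ((N : ℝ) - 1) ^ 2) : ℝ) : ℂ) * ((Complex.I / 2) ^ N * MvPolynomial.aeval
          (fun i : Fin 3 => ((b 0 i : ℝ) : ℂ) - Complex.I * ((b 1 i : ℝ) : ℂ))
            (MvPolynomial.homogeneousComponent N p)) ^ 2 := by
  set z : Fin 3 → ℂ := fun i : Fin 3 => ((b 0 i : ℝ) : ℂ) - Complex.I * ((b 1 i : ℝ) : ℂ) with hz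
  set zc : Fin 3 → ℂ := fun i : Fin 3 => ((b 0 i : ℝ) : ℂ) + Complex.I * ((b 1 i : ℝ) : ℂ) with hzc
  -- the polynomial functions
  set V : Fin 3 → ℂ → ℝ → ℂ := fun j y s =>
    ((-Real.sin s : ℝ) : ℂ) * (Complex.I * z j / 2 - y ^ 2 * (Complex.I * zc j / 2)) +
      (Real.cos s : ℂ) * (y * ((b 2 j : ℝ) : ℂ)) with hV
  set W : Fin 3 → ℂ → ℝ → ℂ := fun j y s =>
    (Real.cos s : ℂ) * (Complex.I * z j / 2 - y ^ 2 * (Complex.I * zc j / 2)) +
      (Real.sin s : ℂ) * (y * ((b 2 j : ℝ) : ℂ)) with hW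
  set F : ℂ → ℝ → ℂ := fun y s => ∑ k ∈ Finset.range (N + 1),
    y ^ (N - k) * MvPolynomial.aeval (fun j => W j y s)
      (MvPolynomial.homogeneousComponent k p) with hF
  set D : ℂ → ℝ → ℂ := fun y s => ∑ i : Fin 3, V i y s * ∑ k ∈ Finset.range N,
    y ^ (N - 1 - k) * MvPolynomial.aeval (fun j => W j y s)
      (MvPolynomial.pderiv i (MvPolynomial.homogeneousComponent (k + 1) p)) with hD
  have hcos : IsPoly (fun _ s => (Real.cos s : ℂ)) :=
    isPoly_cont (Complex.continuous_ofReal.comp Real.continuous_cos)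
  have hsin : IsPoly (fun _ s => (Real.sin s : ℂ)) :=
    isPoly_cont (Complex.continuous_ofReal.comp Real.continuous_sin)
  have hnsin : IsPoly (fun _ s => ((-Real.sin s : ℝ) : ℂ)) :=
    isPoly_cont (Complex.continuous_ofReal.comp Real.continuous_sin.neg)
  have hVp : ∀ j, IsPoly (V j) := fun j =>
    (hnsin.mul ((isPoly_const _).sub ((isPoly_y.pow 2).mul (isPoly_const _)))).add
      (hcos.mul (isPoly_y.mul (isPoly_const _)))
  have hWp : ∀ j, IsPoly (W j) := fun j =>
    (hcos.mul ((isPoly_const _).sub ((isPoly_y.pow 2).mul (isPoly_const _)))).add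
      (hsin.mul (isPoly_y.mul (isPoly_const _)))
  have hDp : IsPoly D :=
    IsPoly.sum _ fun i _ => (hVp i).mul (IsPoly.sum _ fun k _ =>
      (isPoly_y.pow _).mul (IsPoly.aeval hWp _))
  have hFp : IsPoly F :=
    IsPoly.sum _ fun k _ => (isPoly_y.pow _).mul (IsPoly.aeval hWp _)
  -- the decompositions
  have hsum : ∑ k ∈ Finset.range (N + 1), MvPolynomial.homogeneousComponent k p = p := by
    have h2 := MvPolynomial.sum_homogeneousComponent p
    have h3 : ∑ k ∈ Finset.range (N + 1), MvPolynomial.homogeneousComponent k p =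
        ∑ k ∈ Finset.range (p.totalDegree + 1), MvPolynomial.homogeneousComponent k p := by
      symm
      refine Finset.sum_subset (fun k hk => ?_) fun k _ hk => ?_
      · simp only [Finset.mem_range] at hk ⊢
        omega
      · refine MvPolynomial.homogeneousComponent_eq_zero _ _ ?_
        simp only [Finset.mem_range] at hk
        omega
    rw [h3, h2]
  have hder : ∀ i : Fin 3, MvPolynomial.pderiv i p = ∑ k ∈ Finset.range N,
      MvPolynomial.pderiv i (MvPolynomial.homogeneousComponent (k + 1) p) := by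
    intro i
    conv_lhs => rw [← hsum]
    rw [Finset.sum_range_succ', map_add, map_sum, MvPolynomial.homogeneousComponent_zero,
      MvPolynomial.pderiv_C, add_zero]
  have hhom : ∀ (i : Fin 3) (k : ℕ), (MvPolynomial.pderiv i
      (MvPolynomial.homogeneousComponent (k + 1) p)).IsHomogeneous k := by
    intro i k
    have h1 := (MvPolynomial.homogeneousComponent_isHomogeneous (k + 1) p).pderiv (i := i)
    simpa using h1
  -- the identity on the circle
  have hcirc : ∀ (t : ℝ) (B : OrthonormalBasis (Fin 3) ℝ E3),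
      B 0 = Real.cos t • b 0 + Real.sin t • b 1 → B 1 = (-Real.sin t) • b 0 + Real.cos t • b 1 →
      B 2 = b 2 → Lam (fun s => F (Complex.exp (-(t * Complex.I))) s ^ 2)
      - Lam (fun s => D (Complex.exp (-(t * Complex.I))) s ^ 2) =
      ((GG (ev p) B : ℝ) : ℂ) * Complex.exp (-(t * Complex.I)) ^ (2 * N) := by
    intro t B hB0 hB1 hB2
    set x : ℂ := Complex.exp (t * Complex.I) with hx
    set y : ℂ := Complex.exp (-(t * Complex.I)) with hy
    have hxy : x * y = 1 := by rw [hx, hy, ← Complex.exp_add]; simp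
    have hxv : x = (Real.cos t : ℂ) + (Real.sin t : ℂ) * Complex.I := by
      rw [hx, Complex.exp_mul_I]; push_cast; rfl
    have hyv : y = (Real.cos t : ℂ) - (Real.sin t : ℂ) * Complex.I := by
      rw [hy, ← neg_mul, Complex.exp_mul_I, Complex.cos_neg, Complex.sin_neg]; push_cast; ring
    have hII := Complex.I_mul_I
    have hVx : ∀ (j : Fin 3) (s : ℝ), ((tan B s j : ℝ) : ℂ) = x * V j y s := by
      intro j s
      have h1 : x * V j y s = ((-Real.sin s : ℝ) : ℂ) *
          (Complex.I * (x * z j - y * zc j) / 2) +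
          (Real.cos s : ℂ) * ((b 2 j : ℝ) : ℂ) := by
        have : x * V j y s = ((-Real.sin s : ℝ) : ℂ) *
          (Complex.I * (x * z j - (x * y) * y * zc j) / 2) +
          (Real.cos s : ℂ) * ((x * y) * ((b 2 j : ℝ) : ℂ)) := by
          simp only [hV]; ring
        rw [this, hxy, one_mul, one_mul]
      rw [h1, tan, hB1, hB2, hxv, hyv]
      simp only [hz, hzc, PiLp.add_apply, PiLp.smul_apply, smul_eq_mul]
      push_cast
      linear_combination (-Complex.sin s * (-Complex.sin t * ((b 0 j : ℝ) : ℂ) +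
        Complex.cos t * ((b 1 j : ℝ) : ℂ))) * hII
    have hWx : ∀ (j : Fin 3) (s : ℝ), ((cir B s j : ℝ) : ℂ) = x * W j y s := by
      intro j s
      have h1 : x * W j y s = (Real.cos s : ℂ) * (Complex.I * (x * z j - y * zc j) / 2) +
          (Real.sin s : ℂ) * ((b 2 j : ℝ) : ℂ) := by
        have : x * W j y s = (Real.cos s : ℂ) * (Complex.I * (x * z j - (x * y) * y * zc j) / 2) +
          (Real.sin s : ℂ) * ((x * y) * ((b 2 j : ℝ) : ℂ)) := by
          simp only [hW]; ring
        rw [this, hxy, one_mul, one_mul]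
      rw [h1, cir, hB1, hB2, hxv, hyv]
      simp only [hz, hzc, PiLp.add_apply, PiLp.smul_apply, smul_eq_mul]
      push_cast
      linear_combination (Complex.cos s * (-Complex.sin t * ((b 0 j : ℝ) : ℂ) +
        Complex.cos t * ((b 1 j : ℝ) : ℂ))) * hII
    have hev : ∀ (q : MvPolynomial (Fin 3) ℝ) (s : ℝ), ((ev q (cir B s) : ℝ) : ℂ) =
        MvPolynomial.aeval (fun j => x * W j y s) q := by
      intro q s
      have h1 : (fun j => x * W j y s) = fun j => algebraMap ℝ ℂ (cir B s j) := by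
        funext j; rw [← hWx j s]; rfl
      rw [h1, ev]
      exact (MvPolynomial.aeval_algebraMap_apply ℂ (fun j => cir B s j) q).symm
    set G : ℝ → ℝ := fun s => fderiv ℝ (ev p) (cir B s) (tan B s) with hG
    set H : ℝ → ℝ := fun s => ev p (cir B s) with hH
    have hFH : ∀ s, F y s = ((H s : ℝ) : ℂ) * y ^ N := by
      intro s
      have h2 : ((H s : ℝ) : ℂ) = ∑ k ∈ Finset.range (N + 1),
          x ^ k * MvPolynomial.aeval (fun j => W j y s)
            (MvPolynomial.homogeneousComponent k p) := by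
        simp only [hH]
        rw [hev p s]
        conv_lhs => rw [← hsum]
        rw [map_sum]
        refine Finset.sum_congr rfl fun k _ => ?_
        rw [aeval_scale (MvPolynomial.homogeneousComponent_isHomogeneous k p)]
      rw [h2, Finset.sum_mul]
      simp only [hF]
      refine Finset.sum_congr rfl fun k hk => ?_
      have hk' : k < N + 1 := Finset.mem_range.1 hk
      have h3 : x ^ k * y ^ N = y ^ (N - k) := by
        have : N = k + (N - k) := by omega
        conv_lhs => rw [this]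
        rw [pow_add y, ← mul_assoc, ← mul_pow, hxy, one_pow, one_mul]
      rw [← h3]
      ring
    have hDG : ∀ s, D y s = ((G s : ℝ) : ℂ) * y ^ N := by
      intro s
      have h2 : ((G s : ℝ) : ℂ) = ∑ i : Fin 3, (x * V i y s) * ∑ k ∈ Finset.range N,
          x ^ k * MvPolynomial.aeval (fun j => W j y s)
            (MvPolynomial.pderiv i (MvPolynomial.homogeneousComponent (k + 1) p)) := by
        simp only [hG]
        rw [fderiv_ev]
        push_cast
        refine Finset.sum_congr rfl fun i _ => ?_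
        rw [hVx i s, hev, hder i, map_sum]
        congr 1
        refine Finset.sum_congr rfl fun k _ => ?_
        rw [aeval_scale (hhom i k)]
      rw [h2, Finset.sum_mul]
      simp only [hD]
      refine Finset.sum_congr rfl fun i _ => ?_
      rw [Finset.mul_sum, Finset.mul_sum, Finset.sum_mul]
      refine Finset.sum_congr rfl fun k hk => ?_
      have hk' : k < N := Finset.mem_range.1 hk
      have h3 : x ^ (k + 1) * y ^ N = y ^ (N - 1 - k) := by
        have : N = (k + 1) + (N - 1 - k) := by omega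
        conv_lhs => rw [this]
        rw [pow_add y, ← mul_assoc, ← mul_pow, hxy, one_pow, one_mul]
      rw [← h3]
      ring
    have h1 : Lam (fun s => F y s ^ 2) = ((mean (fun s => H s ^ 2) : ℝ) : ℂ) * y ^ (2 * N) := by
      have : (fun s => F y s ^ 2) = fun s => (((H s ^ 2 : ℝ)) : ℂ) * y ^ (2 * N) := by
        funext s
        rw [hFH s]
        push_cast
        ring
      rw [this, Lam_mul_const, Lam_ofReal]
    have h2 : Lam (fun s => D y s ^ 2) = ((mean (fun s => G s ^ 2) : ℝ) : ℂ) * y ^ (2 * N) := by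
      have : (fun s => D y s ^ 2) = fun s => (((G s ^ 2 : ℝ)) : ℂ) * y ^ (2 * N) := by
        funext s
        rw [hDG s]
        push_cast
        ring
      rw [this, Lam_mul_const, Lam_ofReal]
    have h3 : GG (ev p) B = mean (fun s => H s ^ 2) - mean (fun s => G s ^ 2) := rfl
    rw [h1, h2, h3]
    push_cast
    ring
  obtain ⟨Q1, hQ1⟩ := (hFp.pow 2).lam
  obtain ⟨Q2, hQ2⟩ := (hDp.pow 2).lam
  refine ⟨Q1 - Q2, fun t B hB0 hB1 hB2 => ?_, ?_⟩
  · rw [Polynomial.eval_sub, ← hQ1, ← hQ2]
    exact hcirc t B hB0 hB1 hB2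
  rw [Polynomial.eval_sub, ← hQ1, ← hQ2]
  -- the value at zero
  set P : ℂ := MvPolynomial.aeval z (MvPolynomial.homogeneousComponent N p) with hP
  set κ : ℂ := (Complex.I / 2) ^ N * P with hκ
  have hW0 : ∀ s : ℝ, (fun j => W j 0 s) = fun j => ((Real.cos s : ℂ) * (Complex.I / 2)) * z j := by
    intro s
    funext j
    simp only [hW]
    ring
  have hF0 : ∀ s, F 0 s = ((Real.cos s ^ N : ℝ) : ℂ) * κ := by
    intro s
    simp only [hF]
    rw [Finset.sum_eq_single N]
    · rw [Nat.sub_self, pow_zero, one_mul, hW0,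
        aeval_scale (MvPolynomial.homogeneousComponent_isHomogeneous N p), hκ, mul_pow]
      push_cast
      ring
    · intro k hk hkN
      have hk' : k < N + 1 := Finset.mem_range.1 hk
      rw [zero_pow (by omega), zero_mul]
    · intro hk
      exact absurd (Finset.mem_range.2 (by omega)) hk
  have hD0 : ∀ s, D 0 s = ((Real.sin s * Real.cos s ^ (N - 1) : ℝ) : ℂ) * (-(N : ℂ) * κ) := by
    intro s
    have heuler : ∑ i : Fin 3, z i * MvPolynomial.aeval z
        (MvPolynomial.pderiv i (MvPolynomial.homogeneousComponent N p)) = N * P := by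
      have h1 := (MvPolynomial.homogeneousComponent_isHomogeneous N p).sum_X_mul_pderiv
      have h2 := congrArg (MvPolynomial.aeval z) h1
      simpa using h2
    have h1 : ∀ i : Fin 3, (∑ k ∈ Finset.range N, (0 : ℂ) ^ (N - 1 - k) *
        MvPolynomial.aeval (fun j => W j 0 s)
          (MvPolynomial.pderiv i (MvPolynomial.homogeneousComponent (k + 1) p))) =
        ((Real.cos s : ℂ) * (Complex.I / 2)) ^ (N - 1) * MvPolynomial.aeval z
          (MvPolynomial.pderiv i (MvPolynomial.homogeneousComponent N p)) := by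
      intro i
      rw [Finset.sum_eq_single (N - 1)]
      · have hN1 : N - 1 + 1 = N := by omega
        rw [Nat.sub_self, pow_zero, one_mul, hW0, aeval_scale (hhom i (N - 1)), hN1]
      · intro k hk hkN
        have hk' : k < N := Finset.mem_range.1 hk
        rw [zero_pow (by omega), zero_mul]
      · intro hk
        exact absurd (Finset.mem_range.2 (by omega)) hk
    simp only [hD]
    simp only [h1]
    have h2 : ∀ i : Fin 3, V i 0 s * (((Real.cos s : ℂ) * (Complex.I / 2)) ^ (N - 1) *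
        MvPolynomial.aeval z (MvPolynomial.pderiv i (MvPolynomial.homogeneousComponent N p))) =
        (((-Real.sin s : ℝ) : ℂ) * (Complex.I / 2) *
          ((Real.cos s : ℂ) * (Complex.I / 2)) ^ (N - 1)) *
          (z i * MvPolynomial.aeval z
            (MvPolynomial.pderiv i (MvPolynomial.homogeneousComponent N p))) := by
      intro i
      simp only [hV]
      ring
    rw [Finset.sum_congr rfl fun i _ => h2 i, ← Finset.mul_sum, heuler, hκ, mul_pow]
    have h3 : (Complex.I / 2) ^ N = (Complex.I / 2) * (Complex.I / 2) ^ (N - 1) := by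
      rw [← pow_succ']
      congr 1
      omega
    rw [h3]
    push_cast
    ring
  have h1 : Lam (fun s => F 0 s ^ 2) =
      ((mean (fun s => (Real.cos s ^ N) ^ 2) : ℝ) : ℂ) * κ ^ 2 := by
    have : (fun s => F 0 s ^ 2) = fun s => (((Real.cos s ^ N) ^ 2 : ℝ) : ℂ) * κ ^ 2 := by
      funext s
      rw [hF0 s]
      push_cast
      ring
    rw [this, Lam_mul_const, Lam_ofReal]
  have h2 : Lam (fun s => D 0 s ^ 2) =
      ((mean (fun s => (Real.sin s * Real.cos s ^ (N - 1)) ^ 2) : ℝ) : ℂ) *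
        ((N : ℂ) ^ 2 * κ ^ 2) := by
    have : (fun s => D 0 s ^ 2) = fun s =>
        (((Real.sin s * Real.cos s ^ (N - 1)) ^ 2 : ℝ) : ℂ) * ((N : ℂ) ^ 2 * κ ^ 2) := by
      funext s
      rw [hD0 s]
      push_cast
      ring
    rw [this, Lam_mul_const, Lam_ofReal]
  show Lam (fun s => F 0 s ^ 2) - Lam (fun s => D 0 s ^ 2) = _
  rw [h1, h2, mean_cos N hN]
  push_cast
  ring

theorem null_cone2 {N : ℕ} (hN : 2 ≤ N) {p : MvPolynomial (Fin 3) ℝ} (hp : p.totalDegree ≤ N)
    (h : ∀ b b' : OrthonormalBasis (Fin 3) ℝ E3, GG (ev p) b = GG (ev p) b')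
    (b : OrthonormalBasis (Fin 3) ℝ E3) :
    MvPolynomial.aeval (fun i : Fin 3 => ((b 0 i : ℝ) : ℂ) - Complex.I * ((b 1 i : ℝ) : ℂ))
      (MvPolynomial.homogeneousComponent N p) = 0 := by
  obtain ⟨Q, hQ, hQ0⟩ := rot_poly (by omega : 1 ≤ N) hp b
  have h1 : Q = Polynomial.C ((GG (ev p) b : ℝ) : ℂ) * Polynomial.X ^ (2 * N) := by
    refine poly_eq one_pos fun t _ _ => ?_
    obtain ⟨B, hB0, hB1, hB2⟩ := exists_rot b t
    rw [hQ t B hB0 hB1 hB2, h B b]
  rw [h1] at hQ0
  have h2 : (Polynomial.C ((GG (ev p) b : ℝ) : ℂ) * Polynomial.X ^ (2 * N)).eval 0 = 0 := by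
    rw [Polynomial.eval_mul, Polynomial.eval_pow, Polynomial.eval_X, zero_pow (by omega), mul_zero]
  rw [h2] at hQ0
  rcases mul_eq_zero.1 hQ0.symm with h4 | h4
  · exfalso
    have h5 := Complex.ofReal_eq_zero.1 h4
    have h6 : (2 : ℝ) ≤ N := by exact_mod_cast hN
    have h7 : (0 : ℝ) < (N : ℝ) - 1 := by linarith
    have h8 := mean_pos' N
    have h9 : 0 < mean (fun s => (Real.sin s * Real.cos s ^ (N - 1)) ^ 2) * ((N : ℝ) - 1) ^ 2 := by
      positivity
    linarith
  · have h5 := (pow_eq_zero_iff (by norm_num : (2 : ℕ) ≠ 0)).1 h4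
    have hI : (Complex.I / 2) ^ N ≠ 0 := pow_ne_zero _ (by simp)
    exact (mul_eq_zero.1 h5).resolve_left hI

/-- Constancy near `b` spreads along the rotations of `b` about `b 2`. -/
theorem propagate (p : MvPolynomial (Fin 3) ℝ) (b : OrthonormalBasis (Fin 3) ℝ E3) {C δ : ℝ}
    (hδ : 0 < δ) (h : ∀ B : OrthonormalBasis (Fin 3) ℝ E3, ‖B 0 - b 0‖ < δ → GG (ev p) B = C)
    (t : ℝ) (B : OrthonormalBasis (Fin 3) ℝ E3)
    (hB0 : B 0 = Real.cos t • b 0 + Real.sin t • b 1)
    (hB1 : B 1 = (-Real.sin t) • b 0 + Real.cos t • b 1) (hB2 : B 2 = b 2) :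
    GG (ev p) B = C := by
  set N : ℕ := p.totalDegree + 1 with hNdef
  obtain ⟨Q, hQ, -⟩ := rot_poly (by omega : 1 ≤ N) (by omega : p.totalDegree ≤ N) b
  have hcont : Continuous fun t : ℝ => ‖Real.cos t • b 0 + Real.sin t • b 1 - b 0‖ := by fun_prop
  have h0 : ‖Real.cos 0 • b 0 + Real.sin 0 • b 1 - b 0‖ < δ := by
    rw [Real.cos_zero, Real.sin_zero, one_smul, zero_smul, add_zero, sub_self, norm_zero]
    exact hδ
  obtain ⟨η, hη, hball⟩ := Metric.eventually_nhds_iff.1
    (hcont.continuousAt.eventually_lt (continuousAt_const (y := δ)) h0)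
  have h1 : Q = Polynomial.C ((C : ℝ) : ℂ) * Polynomial.X ^ (2 * N) := by
    refine poly_eq hη fun s hs0 hs1 => ?_
    obtain ⟨B', hB0', hB1', hB2'⟩ := exists_rot b s
    rw [hQ s B' hB0' hB1' hB2', h B']
    rw [hB0']
    refine hball ?_
    rw [Real.dist_eq, sub_zero, abs_of_pos hs0]
    exact hs1
  have h2 := hQ t B hB0 hB1 hB2
  rw [h1, Polynomial.eval_mul, Polynomial.eval_pow, Polynomial.eval_X, Polynomial.eval_C] at h2
  have h3 : Complex.exp (-(t * Complex.I)) ^ (2 * N) ≠ 0 := pow_ne_zero _ (Complex.exp_ne_zero _)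
  exact (Complex.ofReal_injective (mul_right_cancel₀ h3 h2)).symm

end Pool.Agent.Helper35.PB
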